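import Pool.Agent.H25.EC.Star4

/-!
EC-T1 in the interface form of helper13 (`H13.EC.disc_star`).
-/

set_option autoImplicit false

namespace Pool.Agent.H25.EC

open Finset

theorem disc_star (n m : ℕ) (g : ℕ → ℕ → ℝ)
    (hg : ∀ i j, i ≤ n → j ≤ m → 0 ≤ g i j)
    (hmin : ∀ i j, 0 < i → i < n → 0 < j → j < m →
      g (i - 1) j < g i j ∨ g (i + 1) j < g i j ∨ g i (j - 1) < g i j ∨ g i (j + 1) < g i j)
    {ι : Type} (s : Finset ι) (B : ι → Set (ℕ × ℕ))
    (hB : ∀ k ∈ s, ∀ l ∈ s, k ≠ l → Disjoint (B k) (B l))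
    (v0 : ℕ × ℕ) (hv1 : v0.1 ≤ n) (hv2 : v0.2 ≤ m) (hv0 : ∀ k ∈ s, v0 ∉ B k)
    (v : ι → ℕ × ℕ) (hvB : ∀ k ∈ s, v k ∈ B k) (hvn : ∀ k ∈ s, (v k).1 ≤ n)
    (hvm : ∀ k ∈ s, (v k).2 ≤ m) (lo hi : ι → ℝ) (hlo : ∀ k ∈ s, 0 ≤ lo k)
    (hhi : ∀ k ∈ s, hi k ≤ g (v k).1 (v k).2)
    (hx : ∀ k ∈ s, ∀ i j, i < n → j ≤ m → ((i, j) ∈ B k ↔ (i + 1, j) ∉ B k) →
      min (g i j) (g (i + 1) j) ≤ lo k)
    (hy : ∀ k ∈ s, ∀ i j, i ≤ n → j < m → ((i, j) ∈ B k ↔ (i, j + 1) ∉ B k) →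
      min (g i j) (g i (j + 1)) ≤ lo k) :
    g v0.1 v0.2 + ∑ k ∈ s, (hi k - lo k) ≤
      ∑ i ∈ Finset.range n, ∑ j ∈ Finset.range m,
        J (g i j) (g (i + 1) j) (g i (j + 1)) (g (i + 1) (j + 1)) +
      ∑ j ∈ Finset.range m, max 0 (g n j - g n (j + 1)) +
      ∑ i ∈ Finset.range n, max 0 (g i m - g (i + 1) m) + g n m := by
  have hgrid : ∀ p : ℕ × ℕ, p ∈ grid n m ↔ p.1 ≤ n ∧ p.2 ≤ m := by
    intro p
    simp only [grid, mem_product, mem_range]
    omega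
  have h1 := discrete_star_cell (m := n) (n := m) (fun p => g p.1 p.2)
    (fun p hp => hg _ _ ((hgrid p).mp hp).1 ((hgrid p).mp hp).2)
    (by
      intro i j h1 h2 h3 h4
      rcases hmin i j h1 h2 h3 h4 with h | h | h | h
      · exact Or.inr (Or.inl h)
      · exact Or.inl h
      · exact Or.inr (Or.inr (Or.inr h))
      · exact Or.inr (Or.inr (Or.inl h)))
    (κ := s) (fun k => B k)
    (by
      intro k l hkl p hp hp'
      have := hB k k.2 l l.2 (fun h => hkl (Subtype.ext h))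
      exact Set.disjoint_left.mp this hp hp')
    (fun k => v k) (fun k => (hgrid _).mpr ⟨hvn k k.2, hvm k k.2⟩) (fun k => hvB k k.2)
    (fun k => lo k) (fun k => hlo k k.2)
    (by
      rintro k ⟨a, b⟩ hu ⟨c, d⟩ hv' hNb huB hvB'
      rw [hgrid] at hu hv'
      simp only at hu hv'
      rcases hNb with h | h | h | h
      · simp only [Prod.mk.injEq] at h
        obtain ⟨rfl, rfl⟩ := h
        exact hx k k.2 a d (by omega) (by omega) ⟨fun _ => hvB', fun _ => huB⟩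
      · simp only [Prod.mk.injEq] at h
        obtain ⟨rfl, rfl⟩ := h
        have := hx k k.2 c b (by omega) (by omega)
          ⟨fun h => absurd h hvB', fun h => absurd huB h⟩
        rw [min_comm]
        exact this
      · simp only [Prod.mk.injEq] at h
        obtain ⟨rfl, rfl⟩ := h
        exact hy k k.2 c b (by omega) (by omega) ⟨fun _ => hvB', fun _ => huB⟩
      · simp only [Prod.mk.injEq] at h
        obtain ⟨rfl, rfl⟩ := h
        have := hy k k.2 a d (by omega) (by omega)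
          ⟨fun h => absurd h hvB', fun h => absurd huB h⟩
        rw [min_comm]
        exact this)
    v0 ((hgrid _).mpr ⟨hv1, hv2⟩) (fun k => hv0 k k.2)
  have h2 : ∑ k ∈ s, (hi k - lo k) ≤
      ∑ k : s, max (g (v k).1 (v k).2 - lo k) 0 := by
    rw [← sum_coe_sort s (fun k => hi k - lo k)]
    apply sum_le_sum
    intro k _
    exact le_max_of_le_left (by linarith [hhi k k.2])
  have e1 : ∀ a b : ℝ, max 0 (a - b) = max (a - b) 0 := fun a b => max_comm _ _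
  simp only [e1]
  linarith

end Pool.Agent.H25.EC
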