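import Mathlib

/-!
Discrete STAR lemma (Euler characteristic of the superlevel sets of a function on a grid without
interior local minima).  Project EC (helper13), MP_ecfee9_an.
-/

set_option autoImplicit false

namespace Pool.Agent.H25.EC

open Finset

/-- all points of the grid `[0,m] x [0,n]` -/
def grid (m n : ℕ) : Finset (ℕ × ℕ) := range (m + 1) ×ˢ range (n + 1)

/-- neighbours in the grid graph -/
def Nb (u v : ℕ × ℕ) : Prop :=
  (v = (u.1 + 1, u.2)) ∨ (u = (v.1 + 1, v.2)) ∨ (v = (u.1, u.2 + 1)) ∨ (u = (v.1, v.2 + 1))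

section Algebra

variable (m n : ℕ) (U : ℕ × ℕ → Prop) [DecidablePred U]

/-- horizontal edges -/
def HE : Finset (ℕ × ℕ) :=
  (range m ×ˢ range (n + 1)).filter (fun p => U p ∧ U (p.1 + 1, p.2))

/-- vertical edges -/
def VE : Finset (ℕ × ℕ) :=
  (range (m + 1) ×ˢ range n).filter (fun p => U p ∧ U (p.1, p.2 + 1))

/-- faces -/
def FE : Finset (ℕ × ℕ) :=
  (range m ×ˢ range n).filter
    (fun p => U p ∧ U (p.1 + 1, p.2) ∧ U (p.1, p.2 + 1) ∧ U (p.1 + 1, p.2 + 1))

/-- vertical edges which are not the left edge of a face -/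
def VR : Finset (ℕ × ℕ) := VE m n U \ FE m n U

/-- vertices in `U` -/
def VT : Finset (ℕ × ℕ) := (grid m n).filter U

lemma FE_sub_VE : FE m n U ⊆ VE m n U := by
  intro p hp
  simp only [FE, VE, mem_filter, mem_product, mem_range] at hp ⊢
  refine ⟨⟨by omega, hp.1.2⟩, hp.2.1, hp.2.2.2.1⟩

/-- boundary of the chain `(h, v)` at the vertex `p` -/
def bd (h v : ℕ × ℕ → ZMod 2) (p : ℕ × ℕ) : ZMod 2 :=
  h p + (if p.1 = 0 then 0 else h (p.1 - 1, p.2)) + v p + (if p.2 = 0 then 0 else v (p.1, p.2 - 1))

/-- parity of the vertical edges of row `j` up to column `i` -/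
def KK (v : ℕ × ℕ → ZMod 2) (i j : ℕ) : ZMod 2 := ∑ i' ∈ range (i + 1), v (i', j)

lemma KK_succ (v : ℕ × ℕ → ZMod 2) (i j : ℕ) : KK v (i + 1) j = KK v i j + v (i + 1, j) := by
  simp [KK, sum_range_succ]

lemma h_eq_KK (h v : ℕ × ℕ → ZMod 2) (hb : ∀ p ∈ grid m n, bd h v p = 0) (j : ℕ) (hj : j ≤ n) :
    ∀ i ≤ m, h (i, j) = KK v i j + (if j = 0 then 0 else KK v i (j - 1)) := by
  intro i
  induction i with
  | zero =>
    intro hi
    have h1 := hb (0, j) (by simp [grid]; omega)
    simp only [bd, if_true, add_zero] at h1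
    have e2 : ∀ a b c : ZMod 2, a + b + c = 0 → a = b + c := by decide
    have := e2 _ _ _ h1
    rw [this]
    by_cases hj0 : j = 0
    · simp [KK, hj0]
    · simp [KK, hj0]
  | succ i ih =>
    intro hi
    have h0 := ih (by omega)
    have h1 := hb (i + 1, j) (by simp [grid]; omega)
    simp only [bd, Nat.add_sub_cancel, Nat.succ_ne_zero, if_false, Nat.add_eq_zero_iff,
      one_ne_zero, and_false] at h1
    rw [KK_succ]
    have e2 : ∀ a b c d : ZMod 2, a + b + c + d = 0 → a = b + c + d := by decide
    have h2 := e2 _ _ _ _ h1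
    rw [h2, h0]
    by_cases hj0 : j = 0
    · simp [hj0]
    · simp only [hj0, if_false]
      rw [KK_succ]
      ring

variable {m n U}

/-- **Key injectivity**: an even chain supported on `HE` and `VR` vanishes. -/
theorem even_chain_zero (f : ℕ × ℕ → ℝ) (lam : ℝ) (hU : ∀ p ∈ grid m n, (U p ↔ lam < f p))
    (hmin : ∀ i j, 0 < i → i < m → 0 < j → j < n →
      f (i + 1, j) < f (i, j) ∨ f (i - 1, j) < f (i, j) ∨ f (i, j + 1) < f (i, j) ∨
        f (i, j - 1) < f (i, j))
    (h v : ℕ × ℕ → ZMod 2) (hh : ∀ p, p ∉ HE m n U → h p = 0)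
    (hv : ∀ p, p ∉ VR m n U → v p = 0)
    (hb : ∀ p ∈ grid m n, bd h v p = 0) : (∀ p, h p = 0) ∧ (∀ p, v p = 0) := by
  classical
  -- support facts
  have hvn : ∀ i j, n ≤ j → v (i, j) = 0 := by
    intro i j hj
    apply hv
    simp only [VR, VE, mem_sdiff, mem_filter, mem_product, mem_range]
    omega
  have hvm : ∀ i j, m < i → v (i, j) = 0 := by
    intro i j hj
    apply hv
    simp only [VR, VE, mem_sdiff, mem_filter, mem_product, mem_range]
    omega
  have hhm : ∀ i j, m ≤ i → h (i, j) = 0 := by
    intro i j hj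
    apply hh
    simp only [HE, mem_filter, mem_product, mem_range]
    omega
  have hKn : ∀ i j, n ≤ j → KK v i j = 0 := by
    intro i j hj
    apply sum_eq_zero
    intro i' _
    exact hvn i' j hj
  have hrow := h_eq_KK m n h v hb
  have hKm : ∀ j, KK v m j = 0 := by
    intro j
    induction j with
    | zero =>
      have := hrow 0 (Nat.zero_le _) m le_rfl
      rw [hhm m 0 le_rfl] at this
      simpa using this.symm
    | succ j ih =>
      by_cases hj : j + 1 ≤ n
      · have := hrow (j + 1) hj m le_rfl
        rw [hhm m (j + 1) le_rfl] at this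
        simp only [Nat.succ_ne_zero, if_false, Nat.add_sub_cancel, ih, add_zero] at this
        exact this.symm
      · exact hKn m (j + 1) (by omega)
  -- the four faces around a vertex outside U have the same parity
  -- faces with K = 1
  have hz1 : ∀ a : ZMod 2, a = 0 ∨ a = 1 := by decide
  have hnU_h : ∀ p ∈ grid m n, ¬ U p → h p = 0 ∧ (∀ a, p.1 = a + 1 → h (a, p.2) = 0) ∧
      v p = 0 ∧ (∀ b, p.2 = b + 1 → v (p.1, b) = 0) := by
    intro p hp hpU
    refine ⟨?_, ?_, ?_, ?_⟩
    · apply hh
      simp only [HE, mem_filter, not_and]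
      intro _ hU1
      exact absurd hU1 hpU
    · intro a ha
      apply hh
      simp only [HE, mem_filter, not_and]
      intro _ _
      rw [← ha]
      exact hpU
    · apply hv
      simp only [VR, VE, mem_sdiff, mem_filter, not_and]
      intro h1
      exact absurd h1.2.1 hpU
    · intro b hb'
      apply hv
      simp only [VR, VE, mem_sdiff, mem_filter, not_and]
      intro h1
      exfalso
      apply hpU
      have := h1.2.2
      simp only [← hb'] at this
      exact this
  -- touching: the vertex p touches the face (i,j)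
  let T : Finset (ℕ × ℕ) := (grid m n).filter (fun p => ¬ U p ∧
    ∃ i j, i < m ∧ j < n ∧ KK v i j = 1 ∧ (p.1 = i ∨ p.1 = i + 1) ∧ (p.2 = j ∨ p.2 = j + 1))
  have hT : T = ∅ := by
    by_contra hne
    obtain ⟨u, huT, humin⟩ := T.exists_min_image f (Finset.nonempty_iff_ne_empty.mpr hne)
    have huT' := huT
    simp only [T, mem_filter] at huT
    obtain ⟨hug, huU, i, j, him, hjn, hK, hui, huj⟩ := huT
    obtain ⟨a, b⟩ := u
    simp only at hui huj
    obtain ⟨f1, f2, f3, f4⟩ := hnU_h (a, b) hug huU
    simp only at f1 f2 f3 f4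
    have hab : a ≤ m ∧ b ≤ n := by simp [grid] at hug; omega
    -- relations
    have rowb := hrow b hab.2 a hab.1
    rw [f1] at rowb
    -- interior
    have key : 0 < a ∧ 0 < b ∧ KK v a b = 1 ∧ KK v (a - 1) b = 1 ∧ KK v a (b - 1) = 1 ∧
        KK v (a - 1) (b - 1) = 1 := by
      have r1 : ∀ a', a = a' + 1 → KK v a b = KK v a' b := by
        intro a' h1
        subst h1
        rw [KK_succ, f3, add_zero]
      have r2 : ∀ a' b', a = a' + 1 → b = b' + 1 → KK v a b' = KK v a' b' := by
        intro a' b' h1 h2
        subst h1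
        rw [KK_succ, f4 b' h2, add_zero]
      have r3 : ∀ b', b = b' + 1 → KK v a b = KK v a b' := by
        intro b' h1
        subst h1
        simp only [Nat.succ_ne_zero, if_false, Nat.add_sub_cancel] at rowb
        have e2 : ∀ x y : ZMod 2, 0 = x + y → x = y := by decide
        exact e2 _ _ rowb
      have r4 : ∀ a' b', a = a' + 1 → b = b' + 1 → KK v a' b = KK v a' b' := by
        intro a' b' h1 h2
        rw [← r1 a' h1, ← r2 a' b' h1 h2]
        exact r3 b' h2
      have r5 : b = 0 → KK v a b = 0 := by
        intro h0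
        subst h0
        simpa using rowb.symm
      have r6 : a = 0 → KK v a b = 0 := by
        intro h0
        subst h0
        simp [KK, f3]
      have r7 : a = 0 → ∀ b', b = b' + 1 → KK v a b' = 0 := by
        intro h0 b' h1
        subst h0
        simp [KK, f4 b' h1]
      -- K v a b = 1
      have hab1 : KK v a b = 1 := by
        rcases hui with hui | hui <;> rcases huj with huj | huj
        · subst hui; subst huj; exact hK
        · subst hui; rw [r3 j huj]; exact hK
        · rw [r1 i hui]; subst huj; exact hK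
        · rw [r1 i hui, r4 i j hui huj]; exact hK
      have ha0 : 0 < a := by
        rcases Nat.eq_zero_or_pos a with h0 | h0
        · rw [r6 h0] at hab1
          exact absurd hab1 (by decide)
        · exact h0
      have hb0 : 0 < b := by
        rcases Nat.eq_zero_or_pos b with h0 | h0
        · rw [r5 h0] at hab1
          exact absurd hab1 (by decide)
        · exact h0
      obtain ⟨a', rfl⟩ : ∃ a', a = a' + 1 := ⟨a - 1, by omega⟩
      obtain ⟨b', rfl⟩ : ∃ b', b = b' + 1 := ⟨b - 1, by omega⟩
      refine ⟨ha0, hb0, hab1, ?_, ?_, ?_⟩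
      · simp only [Nat.add_sub_cancel]
        rw [← r1 a' rfl]; exact hab1
      · simp only [Nat.add_sub_cancel]
        rw [← r3 b' rfl]; exact hab1
      · simp only [Nat.add_sub_cancel]
        rw [← r4 a' b' rfl rfl, ← r1 a' rfl]; exact hab1
    obtain ⟨ha0, hb0, k1, k2, k3, k4⟩ := key
    have ham : a < m := by
      rcases Nat.lt_or_ge a m with h0 | h0
      · exact h0
      · have : a = m := by omega
        rw [this, hKm] at k1
        exact absurd k1 (by decide)
    have hbn : b < n := by
      rcases Nat.lt_or_ge b n with h0 | h0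
      · exact h0
      · rw [hKn _ _ h0] at k1
        exact absurd k1 (by decide)
    have hlam : f (a, b) ≤ lam := by
      have := (hU (a, b) hug).not.mp huU
      exact not_lt.mp this
    have hcontra : ∀ w : ℕ × ℕ, w ∈ grid m n → f w < f (a, b) →
        (∃ i j, i < m ∧ j < n ∧ KK v i j = 1 ∧ (w.1 = i ∨ w.1 = i + 1) ∧ (w.2 = j ∨ w.2 = j + 1)) →
        False := by
      intro w hw hlt hex
      have hwT : w ∈ T := by
        simp only [T, mem_filter]
        refine ⟨hw, ?_, hex⟩
        rw [hU w hw]
        linarith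
      have := humin w hwT
      linarith
    rcases hmin a b ha0 ham hb0 hbn with hlt | hlt | hlt | hlt
    · exact hcontra (a + 1, b) (by simp [grid]; omega) hlt
        ⟨a, b, ham, hbn, k1, Or.inr rfl, Or.inl rfl⟩
    · exact hcontra (a - 1, b) (by simp [grid]; omega) hlt
        ⟨a - 1, b, by omega, hbn, k2, Or.inl rfl, Or.inl rfl⟩
    · exact hcontra (a, b + 1) (by simp [grid]; omega) hlt
        ⟨a, b, ham, hbn, k1, Or.inl rfl, Or.inr rfl⟩
    · exact hcontra (a, b - 1) (by simp [grid]; omega) hlt
        ⟨a, b - 1, ham, by omega, k3, Or.inl rfl, Or.inl rfl⟩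
  have hface : ∀ i j, i < m → j < n → KK v i j = 1 →
      U (i, j) ∧ U (i + 1, j) ∧ U (i, j + 1) ∧ U (i + 1, j + 1) := by
    intro i j hi hj hK
    have aux : ∀ w : ℕ × ℕ, w ∈ grid m n → (w.1 = i ∨ w.1 = i + 1) → (w.2 = j ∨ w.2 = j + 1) →
        U w := by
      intro w hw h1 h2
      by_contra hnU
      have : w ∈ T := by
        simp only [T, mem_filter]
        exact ⟨hw, hnU, i, j, hi, hj, hK, h1, h2⟩
      rw [hT] at this
      simp at this
    exact ⟨aux _ (by simp [grid]; omega) (Or.inl rfl) (Or.inl rfl),
      aux _ (by simp [grid]; omega) (Or.inr rfl) (Or.inl rfl),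
      aux _ (by simp [grid]; omega) (Or.inl rfl) (Or.inr rfl),
      aux _ (by simp [grid]; omega) (Or.inr rfl) (Or.inr rfl)⟩
  have hK0 : ∀ j i, KK v i j = 0 := by
    intro j
    by_cases hj : j < n
    · intro i
      by_cases hi : i < m
      · induction i with
        | zero =>
          rcases hz1 (KK v 0 j) with h0 | h0
          · exact h0
          · exfalso
            have hf := hface 0 j hi hj h0
            have hv0 : v (0, j) = 0 := by
              apply hv
              simp only [VR, mem_sdiff, not_and, not_not]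
              intro _
              simp only [FE, mem_filter, mem_product, mem_range]
              exact ⟨⟨hi, hj⟩, hf⟩
            simp [KK, hv0] at h0
        | succ i ih =>
          have ih' := ih (by omega)
          rcases hz1 (KK v (i + 1) j) with h0 | h0
          · exact h0
          · exfalso
            have hf := hface (i + 1) j hi hj h0
            have hv0 : v (i + 1, j) = 0 := by
              apply hv
              simp only [VR, mem_sdiff, not_and, not_not]
              intro _
              simp only [FE, mem_filter, mem_product, mem_range]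
              exact ⟨⟨hi, hj⟩, hf⟩
            rw [KK_succ, ih', hv0] at h0
            exact absurd h0 (by decide)
      · -- i ≥ m
        have hge : ∀ k, KK v (m + k) j = 0 := by
          intro k
          induction k with
          | zero => exact hKm j
          | succ k ih =>
            rw [← Nat.add_assoc, KK_succ, ih, hvm (m + k + 1) j (by omega), add_zero]
        have := hge (i - m)
        rwa [Nat.add_sub_cancel' (by omega)] at this
    · intro i
      exact hKn i j (by omega)
  have hv0 : ∀ p, v p = 0 := by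
    rintro ⟨i, j⟩
    rcases i with _ | i
    · have := hK0 j 0
      simpa [KK] using this
    · have h1 := hK0 j (i + 1)
      rw [KK_succ, hK0 j i, zero_add] at h1
      exact h1
  refine ⟨?_, hv0⟩
  rintro ⟨i, j⟩
  by_cases hij : i ≤ m ∧ j ≤ n
  · have := hrow j hij.2 i hij.1
    rw [this, hK0 j i]
    by_cases hj0 : j = 0
    · simp [hj0]
    · simp [hj0, hK0 (j - 1) i]
  · apply hh
    simp only [HE, mem_filter, mem_product, mem_range]
    omega

end Algebra

end Pool.Agent.H25.EC
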