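import Pool.Agent.H25.EC.Star

/-!
Discrete STAR lemma, part 2: the count (rank-nullity over `ZMod 2`).
-/

set_option autoImplicit false

namespace Pool.Agent.H25.EC

open Finset

section Count

variable {m n : ℕ} {U : ℕ × ℕ → Prop} [DecidablePred U]

/-- extension by zero -/
def ex (S : Finset (ℕ × ℕ)) (g : S → ZMod 2) (p : ℕ × ℕ) : ZMod 2 :=
  if hp : p ∈ S then g ⟨p, hp⟩ else 0

lemma ex_add (S : Finset (ℕ × ℕ)) (g g' : S → ZMod 2) (p : ℕ × ℕ) :
    ex S (g + g') p = ex S g p + ex S g' p := by
  unfold ex
  split_ifs <;> simp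

lemma ex_not (S : Finset (ℕ × ℕ)) (g : S → ZMod 2) (p : ℕ × ℕ) (hp : p ∉ S) : ex S g p = 0 := by
  simp [ex, hp]

lemma ex_mem (S : Finset (ℕ × ℕ)) (g : S → ZMod 2) (p : S) : ex S g p = g p := by
  simp [ex]

lemma bd_add (h h' v v' : ℕ × ℕ → ZMod 2) (p : ℕ × ℕ) :
    bd (fun q => h q + h' q) (fun q => v q + v' q) p = bd h v p + bd h' v' p := by
  unfold bd
  split_ifs <;> ring

lemma bd_not_U (h v : ℕ × ℕ → ZMod 2) (hh : ∀ p, p ∉ HE m n U → h p = 0)
    (hv : ∀ p, p ∉ VR m n U → v p = 0) (p : ℕ × ℕ) (hp : ¬ U p) : bd h v p = 0 := by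
  have h1 : h p = 0 := by
    apply hh
    simp only [HE, mem_filter, not_and]
    intro _ h; exact absurd h hp
  have h2 : v p = 0 := by
    apply hv
    simp only [VR, VE, mem_sdiff, mem_filter, not_and]
    intro h; exact absurd h.2.1 hp
  have h3 : (if p.1 = 0 then 0 else h (p.1 - 1, p.2)) = 0 := by
    split_ifs with h0
    · rfl
    · apply hh
      simp only [HE, mem_filter, not_and]
      intro _ _
      rw [Nat.sub_add_cancel (by omega)]
      exact hp
  have h4 : (if p.2 = 0 then 0 else v (p.1, p.2 - 1)) = 0 := by
    split_ifs with h0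
    · rfl
    · apply hv
      simp only [VR, VE, mem_sdiff, mem_filter, not_and]
      intro h
      exfalso
      apply hp
      have := h.2.2
      rwa [Nat.sub_add_cancel (by omega)] at this
  simp only [bd, h1, h2, h3, h4, add_zero]

/-- the boundary has even sum on each class of a labelling constant along the edges -/
lemma sum_bd_zero {L : Type*} [DecidableEq L] (lab : ℕ × ℕ → L)
    (labh : ∀ p ∈ HE m n U, lab (p.1 + 1, p.2) = lab p)
    (labv : ∀ p ∈ VE m n U, lab (p.1, p.2 + 1) = lab p)
    (h v : ℕ × ℕ → ZMod 2) (hh : ∀ p, p ∉ HE m n U → h p = 0)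
    (hv : ∀ p, p ∉ VR m n U → v p = 0) (s : L) :
    ∑ p ∈ (grid m n).filter (fun p => lab p = s), bd h v p = 0 := by
  have e1 : ∑ p ∈ (grid m n).filter (fun p => lab p = s), h p =
      ∑ p ∈ (HE m n U).filter (fun p => lab p = s), h p := by
    symm
    apply sum_subset
    · intro p hp
      simp only [HE, grid, mem_filter, mem_product, mem_range] at hp ⊢
      exact ⟨⟨by omega, hp.1.1.2⟩, hp.2⟩
    · intro p hp hp'
      apply hh
      intro hp2
      apply hp'
      simp only [mem_filter] at hp ⊢
      exact ⟨hp2, hp.2⟩
  have e2 : ∑ p ∈ (grid m n).filter (fun p => lab p = s),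
      (if p.1 = 0 then 0 else h (p.1 - 1, p.2)) =
      ∑ p ∈ (HE m n U).filter (fun p => lab p = s), h p := by
    have : ∑ p ∈ (HE m n U).filter (fun p => lab p = s), h p =
      ∑ p ∈ ((HE m n U).filter (fun p => lab p = s)).image (fun p => (p.1 + 1, p.2)),
        h (p.1 - 1, p.2) := by
      rw [sum_image]
      · apply sum_congr rfl
        intro p _
        simp
      · intro p _ q _ hpq
        simp only [Prod.mk.injEq] at hpq
        exact Prod.ext (by omega) hpq.2
    rw [this]
    symm
    have : ∑ p ∈ ((HE m n U).filter (fun p => lab p = s)).image (fun p => (p.1 + 1, p.2)),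
        h (p.1 - 1, p.2) =
        ∑ p ∈ ((HE m n U).filter (fun p => lab p = s)).image (fun p => (p.1 + 1, p.2)),
        (if p.1 = 0 then 0 else h (p.1 - 1, p.2)) := by
      apply sum_congr rfl
      intro p hp
      simp only [mem_image] at hp
      obtain ⟨q, _, rfl⟩ := hp
      simp
    rw [this]
    apply sum_subset
    · intro p hp
      simp only [mem_image] at hp
      obtain ⟨q, hq, rfl⟩ := hp
      simp only [mem_filter] at hq ⊢
      refine ⟨?_, by rw [labh q hq.1]; exact hq.2⟩
      have := hq.1
      simp only [HE, grid, mem_filter, mem_product, mem_range] at this ⊢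
      omega
    · intro p hp hp'
      split_ifs with h0
      · rfl
      · apply hh
        intro hp2
        apply hp'
        simp only [mem_image]
        refine ⟨(p.1 - 1, p.2), ?_, ?_⟩
        · simp only [mem_filter] at hp ⊢
          refine ⟨hp2, ?_⟩
          rw [← labh _ hp2]
          simp only
          rw [Nat.sub_add_cancel (by omega)]
          exact hp.2
        · simp only
          rw [Nat.sub_add_cancel (by omega)]
  have hv' : ∀ p, p ∉ VE m n U → v p = 0 := by
    intro p hp
    apply hv
    intro h
    apply hp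
    simp only [VR, mem_sdiff] at h
    exact h.1
  have e3 : ∑ p ∈ (grid m n).filter (fun p => lab p = s), v p =
      ∑ p ∈ (VE m n U).filter (fun p => lab p = s), v p := by
    symm
    apply sum_subset
    · intro p hp
      simp only [VE, grid, mem_filter, mem_product, mem_range] at hp ⊢
      exact ⟨⟨hp.1.1.1, by omega⟩, hp.2⟩
    · intro p hp hp'
      apply hv'
      intro hp2
      apply hp'
      simp only [mem_filter] at hp ⊢
      exact ⟨hp2, hp.2⟩
  have e4 : ∑ p ∈ (grid m n).filter (fun p => lab p = s),
      (if p.2 = 0 then 0 else v (p.1, p.2 - 1)) =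
      ∑ p ∈ (VE m n U).filter (fun p => lab p = s), v p := by
    have : ∑ p ∈ (VE m n U).filter (fun p => lab p = s), v p =
      ∑ p ∈ ((VE m n U).filter (fun p => lab p = s)).image (fun p => (p.1, p.2 + 1)),
        v (p.1, p.2 - 1) := by
      rw [sum_image]
      · apply sum_congr rfl
        intro p _
        simp
      · intro p _ q _ hpq
        simp only [Prod.mk.injEq] at hpq
        exact Prod.ext hpq.1 (by omega)
    rw [this]
    symm
    have : ∑ p ∈ ((VE m n U).filter (fun p => lab p = s)).image (fun p => (p.1, p.2 + 1)),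
        v (p.1, p.2 - 1) =
        ∑ p ∈ ((VE m n U).filter (fun p => lab p = s)).image (fun p => (p.1, p.2 + 1)),
        (if p.2 = 0 then 0 else v (p.1, p.2 - 1)) := by
      apply sum_congr rfl
      intro p hp
      simp only [mem_image] at hp
      obtain ⟨q, _, rfl⟩ := hp
      simp
    rw [this]
    apply sum_subset
    · intro p hp
      simp only [mem_image] at hp
      obtain ⟨q, hq, rfl⟩ := hp
      simp only [mem_filter] at hq ⊢
      refine ⟨?_, by rw [labv q hq.1]; exact hq.2⟩
      have := hq.1
      simp only [VE, grid, mem_filter, mem_product, mem_range] at this ⊢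
      omega
    · intro p hp hp'
      split_ifs with h0
      · rfl
      · apply hv'
        intro hp2
        apply hp'
        simp only [mem_image]
        refine ⟨(p.1, p.2 - 1), ?_, ?_⟩
        · simp only [mem_filter] at hp ⊢
          refine ⟨hp2, ?_⟩
          rw [← labv _ hp2]
          simp only
          rw [Nat.sub_add_cancel (by omega)]
          exact hp.2
        · simp only
          rw [Nat.sub_add_cancel (by omega)]
  simp only [bd, sum_add_distrib]
  rw [e1, e2, e3, e4]
  have e5 : ∀ x y : ZMod 2, x + x + y + y = 0 := by decide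
  exact e5 _ _

/-- **The count**: the number of classes (unions of components) of the superlevel set is at most
its discrete Euler characteristic. -/
theorem count_le (f : ℕ × ℕ → ℝ) (lam : ℝ) (hU : ∀ p ∈ grid m n, (U p ↔ lam < f p))
    (hmin : ∀ i j, 0 < i → i < m → 0 < j → j < n →
      f (i + 1, j) < f (i, j) ∨ f (i - 1, j) < f (i, j) ∨ f (i, j + 1) < f (i, j) ∨
        f (i, j - 1) < f (i, j))
    {L : Type*} [DecidableEq L] (lab : ℕ × ℕ → L)
    (labh : ∀ p ∈ HE m n U, lab (p.1 + 1, p.2) = lab p)
    (labv : ∀ p ∈ VE m n U, lab (p.1, p.2 + 1) = lab p)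
    (S : Finset L) (z : L → ℕ × ℕ) (hz : ∀ s ∈ S, z s ∈ VT m n U) (hzl : ∀ s ∈ S, lab (z s) = s) :
    S.card + (HE m n U).card + (VE m n U).card ≤ (VT m n U).card + (FE m n U).card := by
  classical
  let Phi : ((HE m n U → ZMod 2) × (VR m n U → ZMod 2) × (S → ZMod 2)) →+
      (VT m n U → ZMod 2) := AddMonoidHom.mk' (fun x p =>
        bd (ex _ x.1) (ex _ x.2.1) p + ∑ s : S, x.2.2 s * (if z s = p then 1 else 0)) (by
          intro x y
          funext p
          have e1 : ex (HE m n U) (x + y).1 = fun q => ex _ x.1 q + ex _ y.1 q := by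
            funext q; exact ex_add _ _ _ _
          have e2 : ex (VR m n U) (x + y).2.1 = fun q => ex _ x.2.1 q + ex _ y.2.1 q := by
            funext q; exact ex_add _ _ _ _
          simp only [Pi.add_apply]
          rw [e1, e2, bd_add]
          have e3 : ∑ s : S, (x + y).2.2 s * (if z s = (p : ℕ × ℕ) then (1 : ZMod 2) else 0) =
              ∑ s : S, x.2.2 s * (if z s = (p : ℕ × ℕ) then (1 : ZMod 2) else 0) +
              ∑ s : S, y.2.2 s * (if z s = (p : ℕ × ℕ) then (1 : ZMod 2) else 0) := by
            rw [← sum_add_distrib]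
            apply sum_congr rfl
            intro s _
            simp only [Prod.snd_add, Pi.add_apply]
            ring
          rw [e3]
          ring)
  have hinj : Function.Injective Phi := by
    rw [injective_iff_map_eq_zero]
    intro x hx
    have hx' : ∀ p ∈ VT m n U, bd (ex _ x.1) (ex _ x.2.1) p +
        ∑ s : S, x.2.2 s * (if z s = p then 1 else 0) = 0 := by
      intro p hp
      have := congrFun hx ⟨p, hp⟩
      exact this
    have hh := ex_not (HE m n U) x.1
    have hv := ex_not (VR m n U) x.2.1
    -- extended to the whole grid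
    have hx2 : ∀ p ∈ grid m n, bd (ex _ x.1) (ex _ x.2.1) p +
        ∑ s : S, x.2.2 s * (if z s = p then 1 else 0) = 0 := by
      intro p hp
      by_cases hU' : U p
      · exact hx' p (by simp [VT, hp, hU'])
      · rw [bd_not_U _ _ hh hv p hU', zero_add]
        apply sum_eq_zero
        intro s _
        rw [if_neg, mul_zero]
        intro h
        have := hz s s.2
        rw [h] at this
        simp only [VT, mem_filter] at this
        exact hU' this.2
    have hc : ∀ s : S, x.2.2 s = 0 := by
      intro s
      have h1 := sum_bd_zero lab labh labv _ _ hh hv (s : L)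
      have h2 : ∑ p ∈ (grid m n).filter (fun p => lab p = s),
          (bd (ex _ x.1) (ex _ x.2.1) p + ∑ t : S, x.2.2 t * (if z t = p then 1 else 0)) = 0 := by
        apply sum_eq_zero
        intro p hp
        exact hx2 p (mem_filter.mp hp).1
      rw [sum_add_distrib, h1, zero_add, sum_comm] at h2
      have h3 : ∀ t : S, ∑ p ∈ (grid m n).filter (fun p => lab p = s),
          x.2.2 t * (if z t = p then (1 : ZMod 2) else 0) = if t = s then x.2.2 t else 0 := by
        intro t
        rw [← mul_sum, sum_ite_eq]
        have hzt := hzl t t.2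
        have hzg : z t ∈ grid m n := (mem_filter.mp (hz t t.2)).1
        by_cases hts : t = s
        · subst hts
          simp [hzt, hzg]
        · have : (t : L) ≠ s := fun h => hts (Subtype.ext h)
          simp [hzt, this, hts]
      simp only [h3] at h2
      simpa using h2
    have hbd : ∀ p ∈ grid m n, bd (ex _ x.1) (ex _ x.2.1) p = 0 := by
      intro p hp
      have := hx2 p hp
      simpa [hc] using this
    obtain ⟨r1, r2⟩ := even_chain_zero f lam hU hmin _ _ hh hv hbd
    refine Prod.ext ?_ (Prod.ext ?_ ?_)
    · funext p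
      rw [← ex_mem (HE m n U) x.1 p, r1 p]
      rfl
    · funext p
      rw [← ex_mem (VR m n U) x.2.1 p, r2 p]
      rfl
    · funext s
      exact hc s
  have hcard := Fintype.card_le_of_injective Phi hinj
  simp only [Fintype.card_prod, Fintype.card_fun, ZMod.card, Fintype.card_coe] at hcard
  rw [← pow_add, ← pow_add] at hcard
  have h4 := (Nat.pow_le_pow_iff_right (by norm_num : 1 < 2)).mp hcard
  have h5 : (VR m n U).card + (FE m n U).card = (VE m n U).card := by
    have := card_sdiff_add_card_eq_card (FE_sub_VE m n U)
    exact this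
  omega

end Count

end Pool.Agent.H25.EC
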