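import Pool.Agent.H25.EC.Star2

/-!
Discrete STAR lemma, part 3: level inequality, layer cake, the final discrete inequality.
-/

set_option autoImplicit false

namespace Pool.Agent.H25.EC

open Finset MeasureTheory

/-- indicator of `lam < t` -/
noncomputable def ind (t lam : ℝ) : ℝ := if lam < t then 1 else 0

lemma ind_eq_indicator (t : ℝ) : ind t = (Set.Iio t).indicator (fun _ => (1 : ℝ)) := by
  funext lam
  by_cases h : lam < t
  · rw [Set.indicator_of_mem (by exact h)]
    simp [ind, h]
  · rw [Set.indicator_of_notMem (by exact h)]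
    simp [ind, h]

lemma integrable_ind (L t : ℝ) : IntegrableOn (ind t) (Set.Ico 0 L) := by
  rw [ind_eq_indicator]
  apply Integrable.indicator
  · exact integrableOn_const (by simp) (by simp)
  · exact measurableSet_Iio

lemma integral_ind (L t : ℝ) (h0 : 0 ≤ t) (hL : t ≤ L) :
    ∫ lam in Set.Ico 0 L, ind t lam = t := by
  rw [ind_eq_indicator, integral_indicator measurableSet_Iio, Measure.restrict_restrict
    measurableSet_Iio]
  have : Set.Iio t ∩ Set.Ico 0 L = Set.Ico 0 t := by
    ext x
    simp only [Set.mem_inter_iff, Set.mem_Iio, Set.mem_Ico]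
    constructor
    · rintro ⟨h1, h2, h3⟩
      exact ⟨h2, h1⟩
    · rintro ⟨h1, h2⟩
      exact ⟨h2, h1, by linarith⟩
  rw [this]
  simp [h0]

/-- indicator of `a ≤ lam < b` -/
noncomputable def ind2 (a b lam : ℝ) : ℝ := if a ≤ lam ∧ lam < b then 1 else 0

lemma ind2_eq_indicator (a b : ℝ) : ind2 a b = (Set.Ico a b).indicator (fun _ => (1 : ℝ)) := by
  funext lam
  by_cases h : a ≤ lam ∧ lam < b
  · rw [Set.indicator_of_mem (by exact h)]
    simp [ind2, h]
  · rw [Set.indicator_of_notMem (by exact h)]
    simp [ind2, h]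

lemma integrable_ind2 (L a b : ℝ) : IntegrableOn (ind2 a b) (Set.Ico 0 L) := by
  rw [ind2_eq_indicator]
  apply Integrable.indicator
  · exact integrableOn_const (by simp) (by simp)
  · exact measurableSet_Ico

lemma integral_ind2 (L a b : ℝ) (h0 : 0 ≤ a) (hL : b ≤ L) :
    ∫ lam in Set.Ico 0 L, ind2 a b lam = max (b - a) 0 := by
  rw [ind2_eq_indicator, integral_indicator measurableSet_Ico, Measure.restrict_restrict
    measurableSet_Ico]
  have : Set.Ico a b ∩ Set.Ico 0 L = Set.Ico a b := by
    ext x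
    simp only [Set.mem_inter_iff, Set.mem_Ico]
    constructor
    · rintro ⟨h1, h2⟩
      exact h1
    · rintro ⟨h1, h2⟩
      exact ⟨⟨h1, h2⟩, by linarith, by linarith⟩
  rw [this]
  rcases le_total a b with h | h
  · simp [h]
  · simp [h]

section Level

variable {m n : ℕ}

theorem level_ineq (f : ℕ × ℕ → ℝ)
    (hmin : ∀ i j, 0 < i → i < m → 0 < j → j < n →
      f (i + 1, j) < f (i, j) ∨ f (i - 1, j) < f (i, j) ∨ f (i, j + 1) < f (i, j) ∨
        f (i, j - 1) < f (i, j))
    {κ : Type*} [Fintype κ] (B : κ → Set (ℕ × ℕ))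
    (hdisj : ∀ k l, k ≠ l → ∀ p, p ∈ B k → p ∉ B l)
    (z : κ → ℕ × ℕ) (hzg : ∀ k, z k ∈ grid m n) (hz : ∀ k, z k ∈ B k) (mm : κ → ℝ)
    (hsep : ∀ k, ∀ u ∈ grid m n, ∀ v ∈ grid m n, Nb u v → u ∈ B k → v ∉ B k →
      min (f u) (f v) ≤ mm k)
    (vs : ℕ × ℕ) (hvs : vs ∈ grid m n) (hvB : ∀ k, vs ∉ B k) (lam : ℝ) :
    ind (f vs) lam + ∑ k, ind2 (mm k) (f (z k)) lam ≤
      ∑ p ∈ grid m n, ind (f p) lam
      - ∑ p ∈ range m ×ˢ range (n + 1), ind (min (f p) (f (p.1 + 1, p.2))) lam
      - ∑ p ∈ range (m + 1) ×ˢ range n, ind (min (f p) (f (p.1, p.2 + 1))) lam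
      + ∑ p ∈ range m ×ˢ range n, ind (min (min (f p) (f (p.1 + 1, p.2)))
          (min (f (p.1, p.2 + 1)) (f (p.1 + 1, p.2 + 1)))) lam := by
  classical
  let U : ℕ × ℕ → Prop := fun p => lam < f p
  let act : Finset κ := univ.filter (fun k => mm k ≤ lam ∧ lam < f (z k))
  let lab : ℕ × ℕ → Option κ := fun p =>
    if h : ∃ k, k ∈ act ∧ p ∈ B k then some h.choose else none
  have lab_some : ∀ k p, k ∈ act → p ∈ B k → lab p = some k := by
    intro k p hk hp
    have hex : ∃ k, k ∈ act ∧ p ∈ B k := ⟨k, hk, hp⟩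
    have hch := hex.choose_spec
    have : hex.choose = k := by
      by_contra hne
      exact hdisj _ _ hne p hch.2 hp
    simp only [lab]
    rw [dif_pos hex, this]
  have lab_none : ∀ p, (∀ k, k ∈ act → p ∉ B k) → lab p = none := by
    intro p hp
    simp only [lab]
    rw [dif_neg]
    rintro ⟨k, hk, hpk⟩
    exact hp k hk hpk
  have lab_edge : ∀ p ∈ grid m n, ∀ q ∈ grid m n, Nb p q → U p → U q → lab q = lab p := by
    intro p hp q hq hpq hUp hUq
    by_cases hex : ∃ k, k ∈ act ∧ p ∈ B k
    · obtain ⟨k, hk, hpk⟩ := hex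
      have hqk : q ∈ B k := by
        by_contra hqk
        have h1 := hsep k p hp q hq hpq hpk hqk
        have h2 : mm k ≤ lam := (mem_filter.mp hk).2.1
        have h3 : lam < min (f p) (f q) := lt_min hUp hUq
        linarith
      rw [lab_some k p hk hpk, lab_some k q hk hqk]
    · push Not at hex
      have hq' : ∀ k, k ∈ act → q ∉ B k := by
        intro k hk hqk
        have hNb : Nb q p := by
          unfold Nb at hpq ⊢
          tauto
        have h1 := hsep k q hq p hp hNb hqk (hex k hk)
        have h2 : mm k ≤ lam := (mem_filter.mp hk).2.1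
        have h3 : lam < min (f q) (f p) := lt_min hUq hUp
        linarith
      rw [lab_none p hex, lab_none q hq']
  have labh : ∀ p ∈ HE m n U, lab (p.1 + 1, p.2) = lab p := by
    intro p hp
    simp only [HE, mem_filter, mem_product, mem_range] at hp
    apply lab_edge p (by simp only [grid, mem_product, mem_range]; omega) _
      (by simp only [grid, mem_product, mem_range]; omega) (Or.inl rfl) hp.2.1 hp.2.2
  have labv : ∀ p ∈ VE m n U, lab (p.1, p.2 + 1) = lab p := by
    intro p hp
    simp only [VE, mem_filter, mem_product, mem_range] at hp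
    apply lab_edge p (by simp only [grid, mem_product, mem_range]; omega) _
      (by simp only [grid, mem_product, mem_range]; omega) (Or.inr (Or.inr (Or.inl rfl)))
      hp.2.1 hp.2.2
  let S1 : Finset (Option κ) := act.image some
  let S2 : Finset (Option κ) := if lam < f vs then {none} else ∅
  let zz : Option κ → ℕ × ℕ := fun o => match o with
    | some k => z k
    | none => vs
  have hzz : ∀ s ∈ S1 ∪ S2, zz s ∈ VT m n U ∧ lab (zz s) = s := by
    intro s hs
    rcases mem_union.mp hs with hs | hs
    · simp only [S1, mem_image] at hs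
      obtain ⟨k, hk, rfl⟩ := hs
      refine ⟨?_, lab_some k (z k) hk (hz k)⟩
      simp only [VT, mem_filter, zz]
      exact ⟨hzg k, (mem_filter.mp hk).2.2⟩
    · by_cases h0 : lam < f vs
      · simp only [S2, if_pos h0, mem_singleton] at hs
        subst hs
        refine ⟨?_, lab_none vs (fun k _ => hvB k)⟩
        simp only [VT, mem_filter, zz]
        exact ⟨hvs, h0⟩
      · simp [S2, if_neg h0] at hs
  have hmain := count_le (m := m) (n := n) (U := U) f lam (fun p _ => Iff.rfl) hmin lab labh labv
    (S1 ∪ S2) zz (fun s hs => (hzz s hs).1) (fun s hs => (hzz s hs).2)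
  have hS : (S1 ∪ S2).card = act.card + (if lam < f vs then 1 else 0) := by
    rw [card_union_of_disjoint]
    · rw [card_image_of_injective _ (Option.some_injective _)]
      by_cases h0 : lam < f vs <;> simp [S2, h0]
    · rw [disjoint_left]
      intro s hs
      simp only [S1, mem_image] at hs
      obtain ⟨k, _, rfl⟩ := hs
      by_cases h0 : lam < f vs <;> simp [S2, h0]
  have hmain' : ((S1 ∪ S2).card : ℝ) + (HE m n U).card + (VE m n U).card ≤
      (VT m n U).card + (FE m n U).card := by exact_mod_cast hmain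
  have c1 : ((S1 ∪ S2).card : ℝ) = ind (f vs) lam + ∑ k, ind2 (mm k) (f (z k)) lam := by
    rw [hS]
    push_cast
    have : (act.card : ℝ) = ∑ k, ind2 (mm k) (f (z k)) lam := by
      simp only [act, card_filter, ind2]
      push_cast
      rfl
    rw [this]
    simp only [ind]
    ring
  have c2 : ((VT m n U).card : ℝ) = ∑ p ∈ grid m n, ind (f p) lam := by
    simp only [VT, card_filter, ind, U]
    push_cast
    rfl
  have c3 : ((HE m n U).card : ℝ) =
      ∑ p ∈ range m ×ˢ range (n + 1), ind (min (f p) (f (p.1 + 1, p.2))) lam := by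
    simp only [HE, card_filter, ind, U, lt_min_iff]
    push_cast
    rfl
  have c4 : ((VE m n U).card : ℝ) =
      ∑ p ∈ range (m + 1) ×ˢ range n, ind (min (f p) (f (p.1, p.2 + 1))) lam := by
    simp only [VE, card_filter, ind, U, lt_min_iff]
    push_cast
    rfl
  have c5 : ((FE m n U).card : ℝ) =
      ∑ p ∈ range m ×ˢ range n, ind (min (min (f p) (f (p.1 + 1, p.2)))
          (min (f (p.1, p.2 + 1)) (f (p.1 + 1, p.2 + 1)))) lam := by
    simp only [FE, card_filter, ind, U, lt_min_iff, and_assoc]
    push_cast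
    rfl
  rw [c1, c2, c3, c4, c5] at hmain'
  linarith

/-- **Discrete STAR inequality** (vertex/edge/face form). -/
theorem discrete_star (f : ℕ × ℕ → ℝ) (hf : ∀ p ∈ grid m n, 0 ≤ f p)
    (hmin : ∀ i j, 0 < i → i < m → 0 < j → j < n →
      f (i + 1, j) < f (i, j) ∨ f (i - 1, j) < f (i, j) ∨ f (i, j + 1) < f (i, j) ∨
        f (i, j - 1) < f (i, j))
    {κ : Type*} [Fintype κ] (B : κ → Set (ℕ × ℕ))
    (hdisj : ∀ k l, k ≠ l → ∀ p, p ∈ B k → p ∉ B l)
    (z : κ → ℕ × ℕ) (hzg : ∀ k, z k ∈ grid m n) (hz : ∀ k, z k ∈ B k) (mm : κ → ℝ)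
    (hmm : ∀ k, 0 ≤ mm k)
    (hsep : ∀ k, ∀ u ∈ grid m n, ∀ v ∈ grid m n, Nb u v → u ∈ B k → v ∉ B k →
      min (f u) (f v) ≤ mm k)
    (vs : ℕ × ℕ) (hvs : vs ∈ grid m n) (hvB : ∀ k, vs ∉ B k) :
    f vs + ∑ k, max (f (z k) - mm k) 0 ≤
      ∑ p ∈ grid m n, f p
      - ∑ p ∈ range m ×ˢ range (n + 1), min (f p) (f (p.1 + 1, p.2))
      - ∑ p ∈ range (m + 1) ×ˢ range n, min (f p) (f (p.1, p.2 + 1))
      + ∑ p ∈ range m ×ˢ range n, min (min (f p) (f (p.1 + 1, p.2)))
          (min (f (p.1, p.2 + 1)) (f (p.1 + 1, p.2 + 1))) := by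
  obtain ⟨L, hL⟩ : ∃ L : ℝ, ∀ p ∈ grid m n, f p ≤ L := by
    obtain ⟨p, hp, hmax⟩ := (grid m n).exists_max_image f ⟨vs, hvs⟩
    exact ⟨f p, hmax⟩
  have hint := setIntegral_mono (μ := volume) (s := Set.Ico 0 L)
    (f := fun lam => ind (f vs) lam + ∑ k, ind2 (mm k) (f (z k)) lam)
    (g := fun lam => ∑ p ∈ grid m n, ind (f p) lam
      - ∑ p ∈ range m ×ˢ range (n + 1), ind (min (f p) (f (p.1 + 1, p.2))) lam
      - ∑ p ∈ range (m + 1) ×ˢ range n, ind (min (f p) (f (p.1, p.2 + 1))) lam
      + ∑ p ∈ range m ×ˢ range n, ind (min (min (f p) (f (p.1 + 1, p.2)))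
          (min (f (p.1, p.2 + 1)) (f (p.1 + 1, p.2 + 1)))) lam)
    (by
      apply Integrable.add (integrable_ind _ _)
      exact integrable_finset_sum _ (fun k _ => integrable_ind2 _ _ _))
    (by
      apply Integrable.add
      · apply Integrable.sub
        · apply Integrable.sub
          · exact integrable_finset_sum _ (fun k _ => integrable_ind _ _)
          · exact integrable_finset_sum _ (fun k _ => integrable_ind _ _)
        · exact integrable_finset_sum _ (fun k _ => integrable_ind _ _)
      · exact integrable_finset_sum _ (fun k _ => integrable_ind _ _))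
    (fun lam => level_ineq f hmin B hdisj z hzg hz mm hsep vs hvs hvB lam)
  rw [integral_add (integrable_ind _ _)
      (integrable_finset_sum _ (fun k _ => integrable_ind2 _ _ _)),
    integral_finset_sum _ (fun k _ => integrable_ind2 _ _ _)] at hint
  rw [integral_add (by
      apply Integrable.sub
      · apply Integrable.sub
        · exact integrable_finset_sum _ (fun k _ => integrable_ind _ _)
        · exact integrable_finset_sum _ (fun k _ => integrable_ind _ _)
      · exact integrable_finset_sum _ (fun k _ => integrable_ind _ _))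
      (integrable_finset_sum _ (fun k _ => integrable_ind _ _)),
    integral_sub (by
      apply Integrable.sub
      · exact integrable_finset_sum _ (fun k _ => integrable_ind _ _)
      · exact integrable_finset_sum _ (fun k _ => integrable_ind _ _))
      (integrable_finset_sum _ (fun k _ => integrable_ind _ _)),
    integral_sub (integrable_finset_sum _ (fun k _ => integrable_ind _ _))
      (integrable_finset_sum _ (fun k _ => integrable_ind _ _)),
    integral_finset_sum _ (fun k _ => integrable_ind _ _),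
    integral_finset_sum _ (fun k _ => integrable_ind _ _),
    integral_finset_sum _ (fun k _ => integrable_ind _ _),
    integral_finset_sum _ (fun k _ => integrable_ind _ _)] at hint
  rw [integral_ind L (f vs) (hf vs hvs) (hL vs hvs)] at hint
  have e1 : ∑ k, ∫ lam in Set.Ico 0 L, ind2 (mm k) (f (z k)) lam =
      ∑ k, max (f (z k) - mm k) 0 := by
    apply sum_congr rfl
    intro k _
    exact integral_ind2 L _ _ (hmm k) (hL _ (hzg k))
  have e2 : ∑ p ∈ grid m n, ∫ lam in Set.Ico 0 L, ind (f p) lam = ∑ p ∈ grid m n, f p := by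
    apply sum_congr rfl
    intro p hp
    exact integral_ind L _ (hf p hp) (hL p hp)
  have e3 : ∑ p ∈ range m ×ˢ range (n + 1),
      ∫ lam in Set.Ico 0 L, ind (min (f p) (f (p.1 + 1, p.2))) lam =
      ∑ p ∈ range m ×ˢ range (n + 1), min (f p) (f (p.1 + 1, p.2)) := by
    apply sum_congr rfl
    intro p hp
    simp only [mem_product, mem_range] at hp
    have g1 : p ∈ grid m n := by simp only [grid, mem_product, mem_range]; omega
    have g2 : (p.1 + 1, p.2) ∈ grid m n := by simp only [grid, mem_product, mem_range]; omega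
    exact integral_ind L _ (le_min (hf _ g1) (hf _ g2)) ((min_le_left _ _).trans (hL _ g1))
  have e4 : ∑ p ∈ range (m + 1) ×ˢ range n,
      ∫ lam in Set.Ico 0 L, ind (min (f p) (f (p.1, p.2 + 1))) lam =
      ∑ p ∈ range (m + 1) ×ˢ range n, min (f p) (f (p.1, p.2 + 1)) := by
    apply sum_congr rfl
    intro p hp
    simp only [mem_product, mem_range] at hp
    have g1 : p ∈ grid m n := by simp only [grid, mem_product, mem_range]; omega
    have g2 : (p.1, p.2 + 1) ∈ grid m n := by simp only [grid, mem_product, mem_range]; omega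
    exact integral_ind L _ (le_min (hf _ g1) (hf _ g2)) ((min_le_left _ _).trans (hL _ g1))
  have e5 : ∑ p ∈ range m ×ˢ range n,
      ∫ lam in Set.Ico 0 L, ind (min (min (f p) (f (p.1 + 1, p.2)))
          (min (f (p.1, p.2 + 1)) (f (p.1 + 1, p.2 + 1)))) lam =
      ∑ p ∈ range m ×ˢ range n, min (min (f p) (f (p.1 + 1, p.2)))
          (min (f (p.1, p.2 + 1)) (f (p.1 + 1, p.2 + 1))) := by
    apply sum_congr rfl
    intro p hp
    simp only [mem_product, mem_range] at hp
    have g1 : p ∈ grid m n := by simp only [grid, mem_product, mem_range]; omega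
    have g2 : (p.1 + 1, p.2) ∈ grid m n := by simp only [grid, mem_product, mem_range]; omega
    have g3 : (p.1, p.2 + 1) ∈ grid m n := by simp only [grid, mem_product, mem_range]; omega
    have g4 : (p.1 + 1, p.2 + 1) ∈ grid m n := by simp only [grid, mem_product, mem_range]; omega
    exact integral_ind L _ (le_min (le_min (hf _ g1) (hf _ g2)) (le_min (hf _ g3) (hf _ g4)))
      ((min_le_left _ _).trans ((min_le_left _ _).trans (hL _ g1)))
  rw [e1, e2, e3, e4, e5] at hint
  exact hint

end Level

end Pool.Agent.H25.EC
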