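import Pool.Agent.H25.EC.Star3

/-!
Discrete STAR lemma, part 4: cell form and the elementary properties of the cell function `J`.
-/

set_option autoImplicit false

namespace Pool.Agent.H25.EC

open Finset

/-- the cell function: `a = f00`, `b = f10`, `c = f01`, `d = f11` -/
noncomputable def J (a b c d : ℝ) : ℝ := a - min a b - min a c + min (min a b) (min c d)

lemma abs_J_le (a b c d : ℝ) : |J a b c d| ≤ |d - b - c + a| := by
  have h1 := le_abs_self (d - b - c + a)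
  have h2 := neg_le_abs (d - b - c + a)
  unfold J
  rw [abs_le]
  generalize |d - b - c + a| = E at h1 h2 ⊢
  simp only [min_def]
  split_ifs <;> constructor <;> linarith

lemma J_eq (a b c d : ℝ) (hb : b ≤ a) (hc : c ≤ a) (hdb : d ≤ b) (hdc : d ≤ c) :
    J a b c d = d - b - c + a := by
  unfold J
  rw [min_eq_right hb, min_eq_right hc, min_eq_right hdc, min_eq_right hdb]
  ring

lemma J_zero_pp (a b c d : ℝ) (hb : a ≤ b) (hc : a ≤ c) (hd : a ≤ d) : J a b c d = 0 := by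
  unfold J
  rw [min_eq_left hb, min_eq_left hc, min_eq_left (le_min hc hd)]
  ring

lemma J_zero_pm (a b c d : ℝ) (hb : a ≤ b) (hc : c ≤ a) (hd : c ≤ d) : J a b c d = 0 := by
  unfold J
  rw [min_eq_left hb, min_eq_right hc, min_eq_left hd, min_eq_right hc]
  ring

lemma J_zero_mp (a b c d : ℝ) (hb : b ≤ a) (hc : a ≤ c) (hd : b ≤ d) : J a b c d = 0 := by
  unfold J
  rw [min_eq_right hb, min_eq_left hc, min_eq_left (le_min (hb.trans hc) hd)]
  ring

section Cell

variable {m n : ℕ}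

/-- **Discrete STAR inequality**, cell form. -/
theorem discrete_star_cell (f : ℕ × ℕ → ℝ) (hf : ∀ p ∈ grid m n, 0 ≤ f p)
    (hmin : ∀ i j, 0 < i → i < m → 0 < j → j < n →
      f (i + 1, j) < f (i, j) ∨ f (i - 1, j) < f (i, j) ∨ f (i, j + 1) < f (i, j) ∨
        f (i, j - 1) < f (i, j))
    {κ : Type*} [Fintype κ] (B : κ → Set (ℕ × ℕ))
    (hdisj : ∀ k l, k ≠ l → ∀ p, p ∈ B k → p ∉ B l)
    (z : κ → ℕ × ℕ) (hzg : ∀ k, z k ∈ grid m n) (hz : ∀ k, z k ∈ B k) (mm : κ → ℝ)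
    (hmm : ∀ k, 0 ≤ mm k)
    (hsep : ∀ k, ∀ u ∈ grid m n, ∀ v ∈ grid m n, Nb u v → u ∈ B k → v ∉ B k →
      min (f u) (f v) ≤ mm k)
    (vs : ℕ × ℕ) (hvs : vs ∈ grid m n) (hvB : ∀ k, vs ∉ B k) :
    f vs + ∑ k, max (f (z k) - mm k) 0 ≤
      ∑ i ∈ range m, ∑ j ∈ range n,
        J (f (i, j)) (f (i + 1, j)) (f (i, j + 1)) (f (i + 1, j + 1))
      + ∑ j ∈ range n, max (f (m, j) - f (m, j + 1)) 0
      + ∑ i ∈ range m, max (f (i, n) - f (i + 1, n)) 0
      + f (m, n) := by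
  have h1 := discrete_star f hf hmin B hdisj z hzg hz mm hmm hsep vs hvs hvB
  have e0 : ∀ g : ℕ × ℕ → ℝ, ∑ p ∈ grid m n, g p =
      ∑ i ∈ range m, ∑ j ∈ range n, g (i, j) + ∑ j ∈ range n, g (m, j)
        + ∑ i ∈ range m, g (i, n) + g (m, n) := by
    intro g
    unfold grid
    rw [sum_product, sum_range_succ]
    have : ∀ i, ∑ j ∈ range (n + 1), g (i, j) = ∑ j ∈ range n, g (i, j) + g (i, n) := by
      intro i; rw [sum_range_succ]
    simp only [this, sum_add_distrib]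
    ring
  have e1 : ∀ g : ℕ × ℕ → ℝ, ∑ p ∈ range m ×ˢ range (n + 1), g p =
      ∑ i ∈ range m, ∑ j ∈ range n, g (i, j) + ∑ i ∈ range m, g (i, n) := by
    intro g
    rw [sum_product]
    have : ∀ i, ∑ j ∈ range (n + 1), g (i, j) = ∑ j ∈ range n, g (i, j) + g (i, n) := by
      intro i; rw [sum_range_succ]
    simp only [this, sum_add_distrib]
  have e2 : ∀ g : ℕ × ℕ → ℝ, ∑ p ∈ range (m + 1) ×ˢ range n, g p =
      ∑ i ∈ range m, ∑ j ∈ range n, g (i, j) + ∑ j ∈ range n, g (m, j) := by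
    intro g
    rw [sum_product, sum_range_succ]
  have e3 : ∀ g : ℕ × ℕ → ℝ, ∑ p ∈ range m ×ˢ range n, g p =
      ∑ i ∈ range m, ∑ j ∈ range n, g (i, j) := by
    intro g
    rw [sum_product]
  rw [e0, e1, e2, e3] at h1
  have e4 : ∀ a b : ℝ, max (a - b) 0 = a - min a b := by
    intro a b
    rcases le_total a b with h | h
    · rw [min_eq_left h, max_eq_right (by linarith)]; ring
    · rw [min_eq_right h, max_eq_left (by linarith)]
  have e5 : ∑ i ∈ range m, ∑ j ∈ range n,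
        J (f (i, j)) (f (i + 1, j)) (f (i, j + 1)) (f (i + 1, j + 1)) =
      ∑ i ∈ range m, ∑ j ∈ range n, f (i, j)
      - ∑ i ∈ range m, ∑ j ∈ range n, min (f (i, j)) (f (i + 1, j))
      - ∑ i ∈ range m, ∑ j ∈ range n, min (f (i, j)) (f (i, j + 1))
      + ∑ i ∈ range m, ∑ j ∈ range n, min (min (f (i, j)) (f (i + 1, j)))
          (min (f (i, j + 1)) (f (i + 1, j + 1))) := by
    simp only [J, sum_add_distrib, sum_sub_distrib]
  rw [e5]
  simp only at h1
  refine h1.trans (le_of_eq ?_)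
  simp only [e4, sum_sub_distrib]
  ring

end Cell

end Pool.Agent.H25.EC
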