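import Pool.Agent.H25.EC.Star4

/-!
EC-T3: the cell sums tend to `∫ 1[f_x < 0, f_y < 0] f_xy`, for every C2 function on a closed
rectangle (no hypothesis on the zero sets of `f_x`, `f_y`).
-/

set_option autoImplicit false

namespace Pool.Agent.H25.EC

open Finset MeasureTheory Filter Topology

/-- grid point -/
noncomputable def gp (x0 x1 : ℝ) (N i : ℕ) : ℝ := x0 + i * ((x1 - x0) / N)

lemma gp_succ (x0 x1 : ℝ) (N i : ℕ) : gp x0 x1 N (i + 1) = gp x0 x1 N i + (x1 - x0) / N := by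
  unfold gp; push_cast; ring

lemma gp_zero (x0 x1 : ℝ) (N : ℕ) : gp x0 x1 N 0 = x0 := by simp [gp]

lemma gp_last (x0 x1 : ℝ) (N : ℕ) (hN : 0 < N) : gp x0 x1 N N = x1 := by
  unfold gp
  have : (N : ℝ) ≠ 0 := by positivity
  field_simp
  ring

lemma step_pos (x0 x1 : ℝ) (hx : x0 < x1) (N : ℕ) (hN : 0 < N) : 0 < (x1 - x0) / N := by
  have : (0 : ℝ) < N := by exact_mod_cast hN
  have := sub_pos.mpr hx
  positivity

lemma gp_mono (x0 x1 : ℝ) (hx : x0 < x1) (N : ℕ) (hN : 0 < N) (i j : ℕ) (hij : i ≤ j) :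
    gp x0 x1 N i ≤ gp x0 x1 N j := by
  unfold gp
  have h1 := step_pos x0 x1 hx N hN
  have h2 : (i : ℝ) ≤ j := by exact_mod_cast hij
  have := mul_le_mul_of_nonneg_right h2 h1.le
  linarith

lemma gp_mem (x0 x1 : ℝ) (hx : x0 < x1) (N : ℕ) (hN : 0 < N) (i : ℕ) (hi : i ≤ N) :
    gp x0 x1 N i ∈ Set.Icc x0 x1 := by
  constructor
  · have := gp_mono x0 x1 hx N hN 0 i (Nat.zero_le _)
    rwa [gp_zero] at this
  · have := gp_mono x0 x1 hx N hN i N hi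
    rwa [gp_last x0 x1 N hN] at this

/-- every point of the interval is in exactly one grid interval -/
lemma gp_exists (x0 x1 : ℝ) (hx : x0 < x1) (N : ℕ) (hN : 0 < N) (x : ℝ)
    (hxI : x ∈ Set.Ico x0 x1) :
    ∃ i < N, gp x0 x1 N i ≤ x ∧ x < gp x0 x1 N (i + 1) := by
  have h1 := step_pos x0 x1 hx N hN
  set h := (x1 - x0) / N with hh
  have h0 : 0 ≤ (x - x0) / h := div_nonneg (by linarith [hxI.1]) h1.le
  refine ⟨⌊(x - x0) / h⌋₊, ?_, ?_, ?_⟩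
  · rw [Nat.floor_lt h0, div_lt_iff₀ h1, hh]
    have : (N : ℝ) ≠ 0 := by positivity
    field_simp
    linarith [hxI.2]
  · unfold gp
    have := Nat.floor_le h0
    rw [le_div_iff₀ h1] at this
    rw [← hh]
    linarith
  · unfold gp
    have := Nat.lt_floor_add_one ((x - x0) / h)
    rw [div_lt_iff₀ h1] at this
    rw [← hh]
    push_cast
    linarith

lemma gp_unique (x0 x1 : ℝ) (hx : x0 < x1) (N : ℕ) (hN : 0 < N) (x : ℝ) (i j : ℕ)
    (h1 : gp x0 x1 N i ≤ x ∧ x < gp x0 x1 N (i + 1))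
    (h2 : gp x0 x1 N j ≤ x ∧ x < gp x0 x1 N (j + 1)) : i = j := by
  by_contra hne
  rcases Nat.lt_or_gt_of_ne hne with h | h
  · have := gp_mono x0 x1 hx N hN (i + 1) j h
    linarith [h1.2, h2.1]
  · have := gp_mono x0 x1 hx N hN (j + 1) i h
    linarith [h2.2, h1.1]

section Main

variable {x0 x1 y0 y1 : ℝ} {f fx fy fxy : ℝ → ℝ → ℝ}

/-- the hypothesis: `f`, `f_x`, `f_y`, `f_xy = (f_x)_y` on the closed rectangle -/
structure C2R (x0 x1 y0 y1 : ℝ) (f fx fy fxy : ℝ → ℝ → ℝ) : Prop where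
  hx : x0 < x1
  hy : y0 < y1
  dx : ∀ x ∈ Set.Icc x0 x1, ∀ y ∈ Set.Icc y0 y1, HasDerivAt (fun s => f s y) (fx x y) x
  dy : ∀ x ∈ Set.Icc x0 x1, ∀ y ∈ Set.Icc y0 y1, HasDerivAt (fun t => f x t) (fy x y) y
  dxy : ∀ x ∈ Set.Icc x0 x1, ∀ y ∈ Set.Icc y0 y1, HasDerivAt (fun t => fx x t) (fxy x y) y
  cx : ContinuousOn (fun p : ℝ × ℝ => fx p.1 p.2) (Set.Icc x0 x1 ×ˢ Set.Icc y0 y1)
  cy : ContinuousOn (fun p : ℝ × ℝ => fy p.1 p.2) (Set.Icc x0 x1 ×ˢ Set.Icc y0 y1)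
  cxy : ContinuousOn (fun p : ℝ × ℝ => fxy p.1 p.2) (Set.Icc x0 x1 ×ˢ Set.Icc y0 y1)

/-- mean value for the mixed difference -/
lemma mixed_mvt (H : C2R x0 x1 y0 y1 f fx fy fxy) (a b c d : ℝ) (ha : a ∈ Set.Icc x0 x1)
    (hb : b ∈ Set.Icc x0 x1) (hc : c ∈ Set.Icc y0 y1) (hd : d ∈ Set.Icc y0 y1) (hab : a < b)
    (hcd : c < d) :
    ∃ ξ ∈ Set.Ioo a b, ∃ η ∈ Set.Ioo c d,
      f b d - f b c - f a d + f a c = (b - a) * (d - c) * fxy ξ η := by
  have sub1 : ∀ s ∈ Set.Icc a b, s ∈ Set.Icc x0 x1 := fun s hs =>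
    ⟨ha.1.trans hs.1, hs.2.trans hb.2⟩
  have sub2 : ∀ t ∈ Set.Icc c d, t ∈ Set.Icc y0 y1 := fun s hs =>
    ⟨hc.1.trans hs.1, hs.2.trans hd.2⟩
  have dg : ∀ s ∈ Set.Icc a b,
      HasDerivAt (fun s => f s d - f s c) (fx s d - fx s c) s := fun s hs =>
    (H.dx s (sub1 s hs) d hd).sub (H.dx s (sub1 s hs) c hc)
  obtain ⟨ξ, hξ, e1⟩ := exists_hasDerivAt_eq_slope (fun s => f s d - f s c)
    (fun s => fx s d - fx s c) hab (fun s hs => (dg s hs).continuousAt.continuousWithinAt)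
    (fun s hs => dg s (Set.Ioo_subset_Icc_self hs))
  have hξ' := sub1 ξ (Set.Ioo_subset_Icc_self hξ)
  obtain ⟨η, hη, e2⟩ := exists_hasDerivAt_eq_slope (fun t => fx ξ t) (fun t => fxy ξ t) hcd
    (fun t ht => (H.dxy ξ hξ' t (sub2 t ht)).continuousAt.continuousWithinAt)
    (fun t ht => H.dxy ξ hξ' t (sub2 t (Set.Ioo_subset_Icc_self ht)))
  refine ⟨ξ, hξ, η, hη, ?_⟩
  have h1 : b - a ≠ 0 := by linarith
  have h2 : d - c ≠ 0 := by linarith
  rw [eq_div_iff h1] at e1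
  rw [eq_div_iff h2] at e2
  calc f b d - f b c - f a d + f a c = (f b d - f b c) - (f a d - f a c) := by ring
    _ = (fx ξ d - fx ξ c) * (b - a) := e1.symm
    _ = (fxy ξ η * (d - c)) * (b - a) := by rw [e2]
    _ = _ := by ring

/-- the exceptional set is null -/
lemma null_x (H : C2R x0 x1 y0 y1 f fx fy fxy) :
    volume {p : ℝ × ℝ | p ∈ Set.Icc x0 x1 ×ˢ Set.Icc y0 y1 ∧ fx p.1 p.2 = 0 ∧
      fxy p.1 p.2 ≠ 0} = 0 := by
  have hcl : IsClosed (Set.Icc x0 x1 ×ˢ Set.Icc y0 y1) := isClosed_Icc.prod isClosed_Icc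
  have hm : MeasurableSet {p : ℝ × ℝ | p ∈ Set.Icc x0 x1 ×ˢ Set.Icc y0 y1 ∧ fx p.1 p.2 = 0 ∧
      fxy p.1 p.2 ≠ 0} := by
    have m1 : IsClosed ((Set.Icc x0 x1 ×ˢ Set.Icc y0 y1) ∩
        (fun p : ℝ × ℝ => fx p.1 p.2) ⁻¹' {0}) :=
      H.cx.preimage_isClosed_of_isClosed hcl isClosed_singleton
    have m2 : IsClosed ((Set.Icc x0 x1 ×ˢ Set.Icc y0 y1) ∩
        (fun p : ℝ × ℝ => fxy p.1 p.2) ⁻¹' {0}) :=
      H.cxy.preimage_isClosed_of_isClosed hcl isClosed_singleton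
    have : {p : ℝ × ℝ | p ∈ Set.Icc x0 x1 ×ˢ Set.Icc y0 y1 ∧ fx p.1 p.2 = 0 ∧
      fxy p.1 p.2 ≠ 0} = ((Set.Icc x0 x1 ×ˢ Set.Icc y0 y1) ∩
        (fun p : ℝ × ℝ => fx p.1 p.2) ⁻¹' {0}) \ ((Set.Icc x0 x1 ×ˢ Set.Icc y0 y1) ∩
        (fun p : ℝ × ℝ => fxy p.1 p.2) ⁻¹' {0}) := by
      ext p
      simp only [Set.mem_ofPred_eq, Set.mem_sdiff, Set.mem_inter_iff, Set.mem_preimage,
        Set.mem_singleton_iff]
      tauto
    rw [this]
    exact m1.measurableSet.diff m2.measurableSet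
  have hvol : (volume : Measure (ℝ × ℝ)) = (volume : Measure ℝ).prod volume := rfl
  rw [hvol, Measure.measure_prod_null hm]
  apply Eventually.of_forall
  intro x
  apply Set.Countable.measure_zero
  refine Set.Countable.mono ?_
    (countable_setOfPred_isolated_right_within (s := {y : ℝ | fx x y = 0}))
  intro y hy
  simp only [Set.mem_preimage, Set.mem_ofPred_eq, Set.mem_prod] at hy
  obtain ⟨⟨hx1, hy1⟩, h0, h1⟩ := hy
  refine ⟨h0, ?_⟩
  have h2 := (H.dxy x hx1 y hy1).eventually_ne (c := 0) h1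
  rw [← Filter.empty_mem_iff_bot]
  have h3 : 𝓝[{y : ℝ | fx x y = 0} ∩ Set.Ioi y] y ≤ 𝓝[≠] y := by
    apply nhdsWithin_mono
    intro t ht
    exact (ne_of_gt ht.2)
  have h4 : ∀ᶠ t in 𝓝[{y : ℝ | fx x y = 0} ∩ Set.Ioi y] y, fx x t ≠ 0 := h3 h2
  have h5 : ∀ᶠ t in 𝓝[{y : ℝ | fx x y = 0} ∩ Set.Ioi y] y,
      t ∈ {y : ℝ | fx x y = 0} ∩ Set.Ioi y := self_mem_nhdsWithin
  have h6 := h4.and h5
  have : ∀ᶠ t in 𝓝[{y : ℝ | fx x y = 0} ∩ Set.Ioi y] y, False := by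
    filter_upwards [h6] with t ht
    exact ht.1 ht.2.1
  exact this

lemma C2R.swap (H : C2R x0 x1 y0 y1 f fx fy fxy)
    (dyx : ∀ x ∈ Set.Icc x0 x1, ∀ y ∈ Set.Icc y0 y1, HasDerivAt (fun s => fy s y) (fxy x y) x) :
    C2R y0 y1 x0 x1 (fun y x => f x y) (fun y x => fy x y) (fun y x => fx x y)
      (fun y x => fxy x y) where
  hx := H.hy
  hy := H.hx
  dx := fun y hy x hx => H.dy x hx y hy
  dy := fun y hy x hx => H.dx x hx y hy
  dxy := fun y hy x hx => dyx x hx y hy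
  cx := by
    have := H.cy.comp (continuous_swap.continuousOn (s := Set.Icc y0 y1 ×ˢ Set.Icc x0 x1))
      (fun p hp => ⟨hp.2, hp.1⟩)
    exact this
  cy := by
    have := H.cx.comp (continuous_swap.continuousOn (s := Set.Icc y0 y1 ×ˢ Set.Icc x0 x1))
      (fun p hp => ⟨hp.2, hp.1⟩)
    exact this
  cxy := by
    have := H.cxy.comp (continuous_swap.continuousOn (s := Set.Icc y0 y1 ×ˢ Set.Icc x0 x1))
      (fun p hp => ⟨hp.2, hp.1⟩)
    exact this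

lemma null_y (H : C2R x0 x1 y0 y1 f fx fy fxy)
    (dyx : ∀ x ∈ Set.Icc x0 x1, ∀ y ∈ Set.Icc y0 y1, HasDerivAt (fun s => fy s y) (fxy x y) x) :
    volume {p : ℝ × ℝ | p ∈ Set.Icc x0 x1 ×ˢ Set.Icc y0 y1 ∧ fy p.1 p.2 = 0 ∧
      fxy p.1 p.2 ≠ 0} = 0 := by
  have h1 := null_x (H.swap dyx)
  have h2 := (Measure.measurePreserving_swap (μ := (volume : Measure ℝ))
    (ν := (volume : Measure ℝ)))
  have h3 := h2.measure_preimage_equiv (f := MeasurableEquiv.prodComm)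
    {p : ℝ × ℝ | p ∈ Set.Icc y0 y1 ×ˢ Set.Icc x0 x1 ∧ fy p.2 p.1 = 0 ∧ fxy p.2 p.1 ≠ 0}
  have hvol : (volume : Measure (ℝ × ℝ)) = (volume : Measure ℝ).prod volume := rfl
  rw [hvol] at h1 ⊢
  rw [← h1, ← h3]
  congr 1
  ext p
  simp only [Set.mem_ofPred_eq, Set.mem_preimage, Set.mem_prod, MeasurableEquiv.prodComm]
  simp
  tauto

/-- the limit density -/
noncomputable def dens (fx fy fxy : ℝ → ℝ → ℝ) (p : ℝ × ℝ) : ℝ :=
  if fx p.1 p.2 < 0 ∧ fy p.1 p.2 < 0 then fxy p.1 p.2 else 0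

/-- value of `J` on the cell `(i, j)` of the `N × N` grid -/
noncomputable def Jcell (f : ℝ → ℝ → ℝ) (x0 x1 y0 y1 : ℝ) (N i j : ℕ) : ℝ :=
  J (f (gp x0 x1 N i) (gp y0 y1 N j)) (f (gp x0 x1 N (i + 1)) (gp y0 y1 N j))
    (f (gp x0 x1 N i) (gp y0 y1 N (j + 1))) (f (gp x0 x1 N (i + 1)) (gp y0 y1 N (j + 1)))

/-- the step function -/
noncomputable def GN (f : ℝ → ℝ → ℝ) (x0 x1 y0 y1 : ℝ) (N : ℕ) (p : ℝ × ℝ) : ℝ :=
  ∑ i ∈ range N, ∑ j ∈ range N,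
    ((Set.Ico (gp x0 x1 N i) (gp x0 x1 N (i + 1))) ×ˢ
      (Set.Ico (gp y0 y1 N j) (gp y0 y1 N (j + 1)))).indicator
      (fun _ => Jcell f x0 x1 y0 y1 N i j / (((x1 - x0) / N) * ((y1 - y0) / N))) p

lemma GN_eq (hx : x0 < x1) (hy : y0 < y1) (N : ℕ) (hN : 0 < N) (p : ℝ × ℝ) (i j : ℕ)
    (hi : i < N) (hj : j < N) (h1 : gp x0 x1 N i ≤ p.1 ∧ p.1 < gp x0 x1 N (i + 1))
    (h2 : gp y0 y1 N j ≤ p.2 ∧ p.2 < gp y0 y1 N (j + 1)) :
    GN f x0 x1 y0 y1 N p =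
      Jcell f x0 x1 y0 y1 N i j / (((x1 - x0) / N) * ((y1 - y0) / N)) := by
  unfold GN
  rw [Finset.sum_eq_single i, Finset.sum_eq_single j]
  · rw [Set.indicator_of_mem]
    exact ⟨h1, h2⟩
  · intro j' _ hj'
    apply Set.indicator_of_notMem
    intro h
    exact hj' (gp_unique y0 y1 hy N hN p.2 j' j h.2 h2)
  · intro h
    exact absurd (mem_range.mpr hj) h
  · intro i' _ hi'
    apply Finset.sum_eq_zero
    intro j' _
    apply Set.indicator_of_notMem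
    intro h
    exact hi' (gp_unique x0 x1 hx N hN p.1 i' i h.1 h1)
  · intro h
    exact absurd (mem_range.mpr hi) h

lemma GN_integral (hx : x0 < x1) (hy : y0 < y1) (N : ℕ) (hN : 0 < N) :
    ∫ p in Set.Ico x0 x1 ×ˢ Set.Ico y0 y1, GN f x0 x1 y0 y1 N p =
      ∑ i ∈ range N, ∑ j ∈ range N, Jcell f x0 x1 y0 y1 N i j := by
  have hm : ∀ i j, MeasurableSet ((Set.Ico (gp x0 x1 N i) (gp x0 x1 N (i + 1))) ×ˢ
      (Set.Ico (gp y0 y1 N j) (gp y0 y1 N (j + 1)))) := fun i j =>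
    measurableSet_Ico.prod measurableSet_Ico
  have hfin : volume (Set.Ico x0 x1 ×ˢ Set.Ico y0 y1) ≠ ⊤ := by
    have hvol : (volume : Measure (ℝ × ℝ)) = (volume : Measure ℝ).prod volume := rfl
    rw [hvol, Measure.prod_prod]
    simp only [Real.volume_Ico]
    exact ENNReal.mul_ne_top ENNReal.ofReal_ne_top ENNReal.ofReal_ne_top
  have hint : ∀ i j, ∀ c : ℝ, IntegrableOn
      (((Set.Ico (gp x0 x1 N i) (gp x0 x1 N (i + 1))) ×ˢ
      (Set.Ico (gp y0 y1 N j) (gp y0 y1 N (j + 1)))).indicator (fun _ => c))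
      (Set.Ico x0 x1 ×ˢ Set.Ico y0 y1) := by
    intro i j c
    apply Integrable.indicator
    · exact integrableOn_const hfin (by simp)
    · exact hm i j
  have s1 := step_pos x0 x1 hx N hN
  have s2 := step_pos y0 y1 hy N hN
  unfold GN
  rw [integral_finsetSum _ (fun i _ => integrable_finsetSum _ (fun j _ => hint i j _))]
  apply sum_congr rfl
  intro i hi
  rw [integral_finsetSum _ (fun j _ => hint i j _)]
  apply sum_congr rfl
  intro j hj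
  rw [mem_range] at hi hj
  rw [integral_indicator (hm i j), Measure.restrict_restrict (hm i j)]
  have hsub : (Set.Ico (gp x0 x1 N i) (gp x0 x1 N (i + 1)) ×ˢ
      Set.Ico (gp y0 y1 N j) (gp y0 y1 N (j + 1))) ∩ (Set.Ico x0 x1 ×ˢ Set.Ico y0 y1) =
      Set.Ico (gp x0 x1 N i) (gp x0 x1 N (i + 1)) ×ˢ
      Set.Ico (gp y0 y1 N j) (gp y0 y1 N (j + 1)) := by
    apply Set.inter_eq_left.mpr
    apply Set.prod_mono
    · exact Set.Ico_subset_Ico (gp_mem x0 x1 hx N hN i (by omega)).1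
        (gp_mem x0 x1 hx N hN (i + 1) (by omega)).2
    · exact Set.Ico_subset_Ico (gp_mem y0 y1 hy N hN j (by omega)).1
        (gp_mem y0 y1 hy N hN (j + 1) (by omega)).2
  rw [hsub, integral_const]
  have hv : (volume.restrict (Set.Ico (gp x0 x1 N i) (gp x0 x1 N (i + 1)) ×ˢ
      Set.Ico (gp y0 y1 N j) (gp y0 y1 N (j + 1)))).real Set.univ =
      ((x1 - x0) / N) * ((y1 - y0) / N) := by
    rw [measureReal_restrict_apply_univ]
    have hvol : (volume : Measure (ℝ × ℝ)) = (volume : Measure ℝ).prod volume := rfl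
    rw [hvol, measureReal_prod_prod, Real.volume_real_Ico_of_le, Real.volume_real_Ico_of_le,
      gp_succ, gp_succ]
    · ring
    · exact gp_mono y0 y1 hy N hN _ _ (Nat.le_succ _)
    · exact gp_mono x0 x1 hx N hN _ _ (Nat.le_succ _)
  rw [hv, smul_eq_mul, mul_div_cancel₀]
  exact (mul_pos s1 s2).ne'

/-- the cell bound: `J / (h k)` is at most `|f_xy|` at some point of the cell -/
lemma Jcell_bound (H : C2R x0 x1 y0 y1 f fx fy fxy) (N : ℕ) (hN : 0 < N) (i j : ℕ)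
    (hi : i < N) (hj : j < N) :
    ∃ ξ ∈ Set.Ioo (gp x0 x1 N i) (gp x0 x1 N (i + 1)),
      ∃ η ∈ Set.Ioo (gp y0 y1 N j) (gp y0 y1 N (j + 1)),
      f (gp x0 x1 N (i + 1)) (gp y0 y1 N (j + 1)) - f (gp x0 x1 N (i + 1)) (gp y0 y1 N j)
        - f (gp x0 x1 N i) (gp y0 y1 N (j + 1)) + f (gp x0 x1 N i) (gp y0 y1 N j)
        = (((x1 - x0) / N) * ((y1 - y0) / N)) * fxy ξ η := by
  have s1 := step_pos x0 x1 H.hx N hN
  have s2 := step_pos y0 y1 H.hy N hN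
  have g1 := gp_succ x0 x1 N i
  have g2 := gp_succ y0 y1 N j
  obtain ⟨ξ, hξ, η, hη, e⟩ := mixed_mvt H (gp x0 x1 N i) (gp x0 x1 N (i + 1)) (gp y0 y1 N j)
    (gp y0 y1 N (j + 1)) (gp_mem x0 x1 H.hx N hN i (by omega))
    (gp_mem x0 x1 H.hx N hN (i + 1) (by omega)) (gp_mem y0 y1 H.hy N hN j (by omega))
    (gp_mem y0 y1 H.hy N hN (j + 1) (by omega)) (by linarith) (by linarith)
  refine ⟨ξ, hξ, η, hη, ?_⟩
  rw [e, g1, g2]
  ring

/-- one-dimensional sign lemma -/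
lemma sign_neg {g g' : ℝ → ℝ} {a b : ℝ} (hab : a < b) (hd : ∀ t ∈ Set.Icc a b, HasDerivAt g (g' t) t)
    (hn : ∀ t ∈ Set.Icc a b, g' t < 0) : g b < g a := by
  obtain ⟨c, hc, e⟩ := exists_hasDerivAt_eq_slope g g' hab
    (fun s hs => (hd s hs).continuousAt.continuousWithinAt)
    (fun s hs => hd s (Set.Ioo_subset_Icc_self hs))
  have h1 := hn c (Set.Ioo_subset_Icc_self hc)
  rw [e, div_lt_iff₀ (by linarith)] at h1
  linarith

lemma sign_pos {g g' : ℝ → ℝ} {a b : ℝ} (hab : a < b) (hd : ∀ t ∈ Set.Icc a b, HasDerivAt g (g' t) t)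
    (hn : ∀ t ∈ Set.Icc a b, 0 < g' t) : g a < g b := by
  obtain ⟨c, hc, e⟩ := exists_hasDerivAt_eq_slope g g' hab
    (fun s hs => (hd s hs).continuousAt.continuousWithinAt)
    (fun s hs => hd s (Set.Ioo_subset_Icc_self hs))
  have h1 := hn c (Set.Ioo_subset_Icc_self hc)
  rw [e, lt_div_iff₀ (by linarith)] at h1
  linarith

/-- pointwise convergence -/
lemma GN_tendsto (H : C2R x0 x1 y0 y1 f fx fy fxy) (p : ℝ × ℝ)
    (hp : p ∈ Set.Ico x0 x1 ×ˢ Set.Ico y0 y1)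
    (hgood : fxy p.1 p.2 = 0 ∨ (fx p.1 p.2 ≠ 0 ∧ fy p.1 p.2 ≠ 0)) :
    Tendsto (fun N => GN f x0 x1 y0 y1 (N + 1) p) atTop (𝓝 (dens fx fy fxy p)) := by
  have hpR : p ∈ Set.Icc x0 x1 ×ˢ Set.Icc y0 y1 :=
    ⟨Set.Ico_subset_Icc_self hp.1, Set.Ico_subset_Icc_self hp.2⟩
  rw [Metric.tendsto_atTop]
  intro ε hε
  -- a uniform neighbourhood
  have cont : ∀ {g : ℝ × ℝ → ℝ}, ContinuousOn g (Set.Icc x0 x1 ×ˢ Set.Icc y0 y1) →
      ∀ e > 0, ∃ δ > 0, ∀ q ∈ Set.Icc x0 x1 ×ˢ Set.Icc y0 y1, |q.1 - p.1| < δ → |q.2 - p.2| < δ →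
        |g q - g p| < e := by
    intro g hg e he
    have := Metric.continuousOn_iff.mp hg p hpR e he
    obtain ⟨δ, hδ, hh⟩ := this
    refine ⟨δ, hδ, fun q hq h1 h2 => ?_⟩
    have := hh q hq (by
      rw [Prod.dist_eq, max_lt_iff, Real.dist_eq, Real.dist_eq]
      exact ⟨h1, h2⟩)
    rwa [Real.dist_eq] at this
  obtain ⟨δ1, hδ1, h1⟩ := cont H.cxy ε hε
  -- sign neighbourhoods
  have sgn : ∀ {g : ℝ × ℝ → ℝ}, ContinuousOn g (Set.Icc x0 x1 ×ˢ Set.Icc y0 y1) →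
      ∃ δ > 0, ∀ q ∈ Set.Icc x0 x1 ×ˢ Set.Icc y0 y1, |q.1 - p.1| < δ → |q.2 - p.2| < δ →
        (g p < 0 → g q < 0) ∧ (0 < g p → 0 < g q) := by
    intro g hg
    by_cases h0 : g p = 0
    · exact ⟨1, one_pos, fun q _ _ _ => ⟨fun h => absurd h0 h.ne, fun h => absurd h0 h.ne'⟩⟩
    · obtain ⟨δ, hδ, hh⟩ := cont hg |g p| (abs_pos.mpr h0)
      refine ⟨δ, hδ, fun q hq h1 h2 => ?_⟩
      have h3 := hh q hq h1 h2
      constructor
      · intro h4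
        rw [abs_of_neg h4, abs_lt] at h3
        linarith [h3.2]
      · intro h4
        rw [abs_of_pos h4, abs_lt] at h3
        linarith [h3.1]
  obtain ⟨δ2, hδ2, h2⟩ := sgn H.cx
  obtain ⟨δ3, hδ3, h3⟩ := sgn H.cy
  set δ := min δ1 (min δ2 δ3) with hδdef
  have hδ : 0 < δ := lt_min hδ1 (lt_min hδ2 hδ3)
  obtain ⟨N0, hN0⟩ := exists_nat_gt (max (x1 - x0) (y1 - y0) / δ)
  refine ⟨N0, fun N hN => ?_⟩
  have hNpos : 0 < N + 1 := Nat.succ_pos N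
  have hN1 : max (x1 - x0) (y1 - y0) / δ < ((N + 1 : ℕ) : ℝ) := by
    refine hN0.trans ?_
    exact_mod_cast Nat.lt_succ_of_le hN
  have hNr : (0 : ℝ) < ((N + 1 : ℕ) : ℝ) := by positivity
  rw [div_lt_iff₀ hδ] at hN1
  have sx : (x1 - x0) / ((N + 1 : ℕ) : ℝ) < δ := by
    rw [div_lt_iff₀ hNr]
    have := le_max_left (x1 - x0) (y1 - y0)
    linarith
  have sy : (y1 - y0) / ((N + 1 : ℕ) : ℝ) < δ := by
    rw [div_lt_iff₀ hNr]
    have := le_max_right (x1 - x0) (y1 - y0)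
    linarith
  obtain ⟨i, hi, hi1, hi2⟩ := gp_exists x0 x1 H.hx (N + 1) hNpos p.1 hp.1
  obtain ⟨j, hj, hj1, hj2⟩ := gp_exists y0 y1 H.hy (N + 1) hNpos p.2 hp.2
  rw [GN_eq H.hx H.hy (N + 1) hNpos p i j hi hj ⟨hi1, hi2⟩ ⟨hj1, hj2⟩]
  obtain ⟨ξ, hξ, η, hη, e⟩ := Jcell_bound H (N + 1) hNpos i j hi hj
  have s1 := step_pos x0 x1 H.hx (N + 1) hNpos
  have s2 := step_pos y0 y1 H.hy (N + 1) hNpos
  have g1 := gp_succ x0 x1 (N + 1) i
  have g2 := gp_succ y0 y1 (N + 1) j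
  have m1 := gp_mem x0 x1 H.hx (N + 1) hNpos i (by omega)
  have m2 := gp_mem x0 x1 H.hx (N + 1) hNpos (i + 1) (by omega)
  have m3 := gp_mem y0 y1 H.hy (N + 1) hNpos j (by omega)
  have m4 := gp_mem y0 y1 H.hy (N + 1) hNpos (j + 1) (by omega)
  -- all points of the closed cell are close to p
  have close : ∀ s ∈ Set.Icc (gp x0 x1 (N + 1) i) (gp x0 x1 (N + 1) (i + 1)),
      ∀ t ∈ Set.Icc (gp y0 y1 (N + 1) j) (gp y0 y1 (N + 1) (j + 1)),
      (s, t) ∈ Set.Icc x0 x1 ×ˢ Set.Icc y0 y1 ∧ |s - p.1| < δ ∧ |t - p.2| < δ := by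
    intro s hs t ht
    refine ⟨⟨⟨m1.1.trans hs.1, hs.2.trans m2.2⟩, ⟨m3.1.trans ht.1, ht.2.trans m4.2⟩⟩, ?_, ?_⟩
    · rw [abs_lt]
      constructor <;> linarith [hs.1, hs.2]
    · rw [abs_lt]
      constructor <;> linarith [ht.1, ht.2]
  set a := gp x0 x1 (N + 1) i with ha
  set b := gp x0 x1 (N + 1) (i + 1) with hb
  set c := gp y0 y1 (N + 1) j with hc
  set d := gp y0 y1 (N + 1) (j + 1) with hd
  have hab : a < b := by linarith
  have hcd : c < d := by linarith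
  set hk := ((x1 - x0) / ((N + 1 : ℕ) : ℝ)) * ((y1 - y0) / ((N + 1 : ℕ) : ℝ)) with hhk
  have hkpos : 0 < hk := mul_pos s1 s2
  have hξη := close ξ (Set.Ioo_subset_Icc_self hξ) η (Set.Ioo_subset_Icc_self hη)
  have near : |fxy ξ η - fxy p.1 p.2| < ε :=
    h1 (ξ, η) hξη.1 (hξη.2.1.trans_le (min_le_left _ _)) (hξη.2.2.trans_le (min_le_left _ _))
  have hJabs : |Jcell f x0 x1 y0 y1 (N + 1) i j| ≤ hk * |fxy ξ η| := by
    have := abs_J_le (f a c) (f b c) (f a d) (f b d)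
    rw [e, abs_mul, abs_of_pos hkpos] at this
    exact this
  rw [Real.dist_eq]
  rcases hgood with h0 | ⟨hx0, hy0⟩
  · -- f_xy = 0
    have hd0 : dens fx fy fxy p = 0 := by
      unfold dens
      split_ifs
      · exact h0
      · rfl
    rw [hd0, sub_zero, abs_div, abs_of_pos hkpos, div_lt_iff₀ hkpos]
    rw [h0, sub_zero] at near
    calc |Jcell f x0 x1 y0 y1 (N + 1) i j| ≤ hk * |fxy ξ η| := hJabs
      _ < hk * ε := mul_lt_mul_of_pos_left near hkpos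
      _ = ε * hk := mul_comm _ _
  · -- generic quadrants
    have dxa : ∀ t ∈ Set.Icc c d, ∀ s ∈ Set.Icc a b, HasDerivAt (fun s => f s t) (fx s t) s := by
      intro t ht s hs
      have := (close s hs t ht).1
      exact H.dx s this.1 t this.2
    have dya : ∀ s ∈ Set.Icc a b, ∀ t ∈ Set.Icc c d, HasDerivAt (fun t => f s t) (fy s t) t := by
      intro s hs t ht
      have := (close s hs t ht).1
      exact H.dy s this.1 t this.2
    have sgx : ∀ s ∈ Set.Icc a b, ∀ t ∈ Set.Icc c d,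
        (fx p.1 p.2 < 0 → fx s t < 0) ∧ (0 < fx p.1 p.2 → 0 < fx s t) := by
      intro s hs t ht
      have := close s hs t ht
      exact h2 (s, t) this.1 (this.2.1.trans_le ((min_le_right _ _).trans (min_le_left _ _)))
        (this.2.2.trans_le ((min_le_right _ _).trans (min_le_left _ _)))
    have sgy : ∀ s ∈ Set.Icc a b, ∀ t ∈ Set.Icc c d,
        (fy p.1 p.2 < 0 → fy s t < 0) ∧ (0 < fy p.1 p.2 → 0 < fy s t) := by
      intro s hs t ht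
      have := close s hs t ht
      exact h3 (s, t) this.1 (this.2.1.trans_le ((min_le_right _ _).trans (min_le_right _ _)))
        (this.2.2.trans_le ((min_le_right _ _).trans (min_le_right _ _)))
    have ca : c ∈ Set.Icc c d := ⟨le_rfl, hcd.le⟩
    have da : d ∈ Set.Icc c d := ⟨hcd.le, le_rfl⟩
    have aa : a ∈ Set.Icc a b := ⟨le_rfl, hab.le⟩
    have ba : b ∈ Set.Icc a b := ⟨hab.le, le_rfl⟩
    have hJdef : Jcell f x0 x1 y0 y1 (N + 1) i j = J (f a c) (f b c) (f a d) (f b d) := rfl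
    rcases lt_or_gt_of_ne hx0 with hx1 | hx1 <;> rcases lt_or_gt_of_ne hy0 with hy1 | hy1
    · have q1 : f b c < f a c := sign_neg hab (dxa c ca) (fun s hs => (sgx s hs c ca).1 hx1)
      have q2 : f b d < f a d := sign_neg hab (dxa d da) (fun s hs => (sgx s hs d da).1 hx1)
      have q3 : f a d < f a c := sign_neg hcd (dya a aa) (fun t ht => (sgy a aa t ht).1 hy1)
      have q4 : f b d < f b c := sign_neg hcd (dya b ba) (fun t ht => (sgy b ba t ht).1 hy1)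
      have hJ : Jcell f x0 x1 y0 y1 (N + 1) i j = hk * fxy ξ η := by
        rw [hJdef, J_eq _ _ _ _ q1.le q3.le q4.le q2.le]
        exact e
      have hdn : dens fx fy fxy p = fxy p.1 p.2 := by
        unfold dens; rw [if_pos ⟨hx1, hy1⟩]
      rw [hJ, hdn, mul_div_cancel_left₀ _ hkpos.ne']
      exact near
    · have q1 : f b c < f a c := sign_neg hab (dxa c ca) (fun s hs => (sgx s hs c ca).1 hx1)
      have q3 : f a c < f a d := sign_pos hcd (dya a aa) (fun t ht => (sgy a aa t ht).2 hy1)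
      have q4 : f b c < f b d := sign_pos hcd (dya b ba) (fun t ht => (sgy b ba t ht).2 hy1)
      have hJ : Jcell f x0 x1 y0 y1 (N + 1) i j = 0 := by
        rw [hJdef, J_zero_mp _ _ _ _ q1.le q3.le q4.le]
      have hdn : dens fx fy fxy p = 0 := by
        unfold dens; rw [if_neg (fun h => absurd h.2 (not_lt.mpr hy1.le))]
      rw [hJ, hdn]
      simpa using hε
    · have q1 : f a c < f b c := sign_pos hab (dxa c ca) (fun s hs => (sgx s hs c ca).2 hx1)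
      have q2 : f a d < f b d := sign_pos hab (dxa d da) (fun s hs => (sgx s hs d da).2 hx1)
      have q3 : f a d < f a c := sign_neg hcd (dya a aa) (fun t ht => (sgy a aa t ht).1 hy1)
      have hJ : Jcell f x0 x1 y0 y1 (N + 1) i j = 0 := by
        rw [hJdef, J_zero_pm _ _ _ _ q1.le q3.le q2.le]
      have hdn : dens fx fy fxy p = 0 := by
        unfold dens; rw [if_neg (fun h => absurd h.1 (not_lt.mpr hx1.le))]
      rw [hJ, hdn]
      simpa using hε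
    · have q1 : f a c < f b c := sign_pos hab (dxa c ca) (fun s hs => (sgx s hs c ca).2 hx1)
      have q3 : f a c < f a d := sign_pos hcd (dya a aa) (fun t ht => (sgy a aa t ht).2 hy1)
      have q2 : f a d < f b d := sign_pos hab (dxa d da) (fun s hs => (sgx s hs d da).2 hx1)
      have hJ : Jcell f x0 x1 y0 y1 (N + 1) i j = 0 := by
        rw [hJdef, J_zero_pp _ _ _ _ q1.le q3.le (q3.trans q2).le]
      have hdn : dens fx fy fxy p = 0 := by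
        unfold dens; rw [if_neg (fun h => absurd h.1 (not_lt.mpr hx1.le))]
      rw [hJ, hdn]
      simpa using hε

/-- **EC-T3**: the cell sums converge (half-open rectangle). -/
theorem cell_sums_tendsto' (H : C2R x0 x1 y0 y1 f fx fy fxy)
    (hny : volume {p : ℝ × ℝ | p ∈ Set.Icc x0 x1 ×ˢ Set.Icc y0 y1 ∧ fy p.1 p.2 = 0 ∧
      fxy p.1 p.2 ≠ 0} = 0) :
    Tendsto (fun N : ℕ => ∑ i ∈ range N, ∑ j ∈ range N, Jcell f x0 x1 y0 y1 N i j) atTop
      (𝓝 (∫ p in Set.Ico x0 x1 ×ˢ Set.Ico y0 y1, dens fx fy fxy p)) := by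
  rw [← tendsto_add_atTop_iff_nat 1]
  have hI : ∀ N : ℕ, ∑ i ∈ range (N + 1), ∑ j ∈ range (N + 1), Jcell f x0 x1 y0 y1 (N + 1) i j =
      ∫ p in Set.Ico x0 x1 ×ˢ Set.Ico y0 y1, GN f x0 x1 y0 y1 (N + 1) p := fun N =>
    (GN_integral H.hx H.hy (N + 1) (Nat.succ_pos N)).symm
  simp only [hI]
  obtain ⟨C, hC⟩ := (isCompact_Icc.prod isCompact_Icc).exists_bound_of_continuousOn H.cxy
  have hfin : volume (Set.Ico x0 x1 ×ˢ Set.Ico y0 y1) ≠ ⊤ := by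
    have hvol : (volume : Measure (ℝ × ℝ)) = (volume : Measure ℝ).prod volume := rfl
    rw [hvol, Measure.prod_prod]
    simp only [Real.volume_Ico]
    exact ENNReal.mul_ne_top ENNReal.ofReal_ne_top ENNReal.ofReal_ne_top
  have hms : MeasurableSet (Set.Ico x0 x1 ×ˢ Set.Ico y0 y1) :=
    measurableSet_Ico.prod measurableSet_Ico
  apply tendsto_integral_of_dominated_convergence (fun _ => C)
  · intro N
    apply Measurable.aestronglyMeasurable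
    unfold GN
    apply Finset.measurable_sum
    intro i _
    apply Finset.measurable_sum
    intro j _
    exact measurable_const.indicator (measurableSet_Ico.prod measurableSet_Ico)
  · exact integrableOn_const hfin (by simp)
  · intro N
    filter_upwards [ae_restrict_mem hms] with p hp
    have hNpos : 0 < N + 1 := Nat.succ_pos N
    obtain ⟨i, hi, hi1, hi2⟩ := gp_exists x0 x1 H.hx (N + 1) hNpos p.1 hp.1
    obtain ⟨j, hj, hj1, hj2⟩ := gp_exists y0 y1 H.hy (N + 1) hNpos p.2 hp.2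
    rw [GN_eq H.hx H.hy (N + 1) hNpos p i j hi hj ⟨hi1, hi2⟩ ⟨hj1, hj2⟩]
    obtain ⟨ξ, hξ, η, hη, e⟩ := Jcell_bound H (N + 1) hNpos i j hi hj
    have s1 := step_pos x0 x1 H.hx (N + 1) hNpos
    have s2 := step_pos y0 y1 H.hy (N + 1) hNpos
    have m1 := gp_mem x0 x1 H.hx (N + 1) hNpos i (by omega)
    have m2 := gp_mem x0 x1 H.hx (N + 1) hNpos (i + 1) (by omega)
    have m3 := gp_mem y0 y1 H.hy (N + 1) hNpos j (by omega)
    have m4 := gp_mem y0 y1 H.hy (N + 1) hNpos (j + 1) (by omega)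
    have hkpos : 0 < ((x1 - x0) / ((N + 1 : ℕ) : ℝ)) * ((y1 - y0) / ((N + 1 : ℕ) : ℝ)) :=
      mul_pos s1 s2
    have hJabs := abs_J_le (f (gp x0 x1 (N + 1) i) (gp y0 y1 (N + 1) j))
      (f (gp x0 x1 (N + 1) (i + 1)) (gp y0 y1 (N + 1) j))
      (f (gp x0 x1 (N + 1) i) (gp y0 y1 (N + 1) (j + 1)))
      (f (gp x0 x1 (N + 1) (i + 1)) (gp y0 y1 (N + 1) (j + 1)))
    rw [e, abs_mul, abs_of_pos hkpos] at hJabs
    have hb := hC (ξ, η) ⟨⟨m1.1.trans hξ.1.le, hξ.2.le.trans m2.2⟩,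
      ⟨m3.1.trans hη.1.le, hη.2.le.trans m4.2⟩⟩
    rw [Real.norm_eq_abs] at hb ⊢
    rw [abs_div, abs_of_pos hkpos, div_le_iff₀ hkpos]
    unfold Jcell
    calc _ ≤ _ := hJabs
      _ ≤ ((x1 - x0) / ((N + 1 : ℕ) : ℝ)) * ((y1 - y0) / ((N + 1 : ℕ) : ℝ)) * C :=
        mul_le_mul_of_nonneg_left hb hkpos.le
      _ = _ := mul_comm _ _
  · have n1 : ∀ᵐ p : ℝ × ℝ ∂(volume.restrict (Set.Ico x0 x1 ×ˢ Set.Ico y0 y1)),
        ¬ (p ∈ Set.Icc x0 x1 ×ˢ Set.Icc y0 y1 ∧ fx p.1 p.2 = 0 ∧ fxy p.1 p.2 ≠ 0) := by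
      apply ae_restrict_of_ae
      rw [ae_iff]
      simp only [not_not]
      exact null_x H
    have n2 : ∀ᵐ p : ℝ × ℝ ∂(volume.restrict (Set.Ico x0 x1 ×ˢ Set.Ico y0 y1)),
        ¬ (p ∈ Set.Icc x0 x1 ×ˢ Set.Icc y0 y1 ∧ fy p.1 p.2 = 0 ∧ fxy p.1 p.2 ≠ 0) := by
      apply ae_restrict_of_ae
      rw [ae_iff]
      simp only [not_not]
      exact hny
    filter_upwards [ae_restrict_mem hms, n1, n2] with p hp h1 h2
    apply GN_tendsto H p hp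
    have hpR : p ∈ Set.Icc x0 x1 ×ˢ Set.Icc y0 y1 :=
      ⟨Set.Ico_subset_Icc_self hp.1, Set.Ico_subset_Icc_self hp.2⟩
    by_cases h0 : fxy p.1 p.2 = 0
    · exact Or.inl h0
    · right
      exact ⟨fun h => h1 ⟨hpR, h, h0⟩, fun h => h2 ⟨hpR, h, h0⟩⟩

/-- **EC-T3**: the cell sums converge (closed rectangle). -/
theorem cell_sums_tendsto (H : C2R x0 x1 y0 y1 f fx fy fxy)
    (hny : volume {p : ℝ × ℝ | p ∈ Set.Icc x0 x1 ×ˢ Set.Icc y0 y1 ∧ fy p.1 p.2 = 0 ∧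
      fxy p.1 p.2 ≠ 0} = 0) :
    Tendsto (fun N : ℕ => ∑ i ∈ range N, ∑ j ∈ range N, Jcell f x0 x1 y0 y1 N i j) atTop
      (𝓝 (∫ p in Set.Icc x0 x1 ×ˢ Set.Icc y0 y1, dens fx fy fxy p)) := by
  have h := cell_sums_tendsto' H hny
  have e : ∫ p in Set.Icc x0 x1 ×ˢ Set.Icc y0 y1, dens fx fy fxy p =
      ∫ p in Set.Ico x0 x1 ×ˢ Set.Ico y0 y1, dens fx fy fxy p := by
    apply setIntegral_congr_set
    exact Measure.set_prod_ae_eq Ico_ae_eq_Icc.symm Ico_ae_eq_Icc.symm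
  rw [e]
  exact h

/-- **EC-T3**, interface form: `{fx = 0 or fy = 0}` is a null set. -/
theorem cell_sums_tendsto_null (H : C2R x0 x1 y0 y1 f fx fy fxy)
    (hnull : volume {p : ℝ × ℝ | p ∈ Set.Icc x0 x1 ×ˢ Set.Icc y0 y1 ∧
      (fx p.1 p.2 = 0 ∨ fy p.1 p.2 = 0)} = 0) :
    Tendsto (fun N : ℕ => ∑ i ∈ range N, ∑ j ∈ range N, Jcell f x0 x1 y0 y1 N i j) atTop
      (𝓝 (∫ p in Set.Icc x0 x1 ×ˢ Set.Icc y0 y1, dens fx fy fxy p)) := by
  apply cell_sums_tendsto H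
  refine measure_mono_null ?_ hnull
  intro p hp
  exact ⟨hp.1, Or.inr hp.2.1⟩

/-- **EC-T3**, no null set hypothesis, but both mixed derivatives. -/
theorem cell_sums_tendsto_dyx (H : C2R x0 x1 y0 y1 f fx fy fxy)
    (dyx : ∀ x ∈ Set.Icc x0 x1, ∀ y ∈ Set.Icc y0 y1, HasDerivAt (fun s => fy s y) (fxy x y) x) :
    Tendsto (fun N : ℕ => ∑ i ∈ range N, ∑ j ∈ range N, Jcell f x0 x1 y0 y1 N i j) atTop
      (𝓝 (∫ p in Set.Icc x0 x1 ×ˢ Set.Icc y0 y1, dens fx fy fxy p)) :=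
  cell_sums_tendsto H (null_y H dyx)

end Main

end Pool.Agent.H25.EC
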